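import Pool.Agent.H3.RCR.Stmts2

/-!
# RCR, module W1: a chord gives an ear different from `O`
-/

namespace Pool.Agent.H3.RCR

namespace W47

theorem verts_mono {S R : Finset Tri} (h : S ⊆ R) {v : ℕ} (hv : v ∈ verts S) : v ∈ verts R := by
  obtain ⟨b, c, hbc⟩ := mem_verts.1 hv
  exact mem_verts.2 ⟨b, c, h hbc⟩

theorem mem_of_isV {S Y : Finset Tri} (hS : RotC S) (hY : RotC Y) {O : Tri} (hO : O ∈ Y) {v : ℕ}
    (h : ∀ p q, (v, p, q) ∈ Y → (v, p, q) ∈ S) (hv : isV v O) : O ∈ S := by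
  obtain ⟨a, b, c⟩ := O
  rcases hv with rfl | rfl | rfl
  · exact h _ _ hO
  · exact hS _ _ _ (hS _ _ _ (h _ _ (hY _ _ _ hO)))
  · exact hS _ _ _ (h _ _ (hY _ _ _ (hY _ _ _ hO)))

theorem third_mem {S : Finset Tri} (hS : RotC S) {a b c : ℕ} (h : (a, b, c) ∈ S) : c ∈ verts S :=
  mem_verts.2 ⟨a, b, hS _ _ _ (hS _ _ _ h)⟩

theorem second_mem {S : Finset Tri} (hS : RotC S) {a b c : ℕ} (h : (a, b, c) ∈ S) : b ∈ verts S :=
  mem_verts.2 ⟨c, a, hS _ _ _ h⟩

theorem ear_ind (h7 : A7Stmt) (h19 : A19Stmt) {Y R : Finset Tri} {O : Tri} {m : ℕ} {Γ : ZMod m → ℕ}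
    (hY : Sph Y) (hΓ : Cyc Y Γ) (hR : Side Y Γ R) (hO : O ∈ R)
    (hv : ∀ v ∈ verts R, (∃ i, v = Γ i) ∨ isV v O) :
    ∀ l : ℕ, ∀ (i : ZMod m) (S : Finset Tri), 2 ≤ l → l + 2 ≤ m →
      Cyc Y (fun k : ZMod (l + 1) => Γ (i + (k.val : ZMod m))) →
      Side Y (fun k : ZMod (l + 1) => Γ (i + (k.val : ZMod m))) S → S ⊆ R → O ∉ S →
      ∃ i, (Γ (i - 1), Γ i, Γ (i + 1)) ∈ S := by
  intro l
  induction l using Nat.strong_induction_on with
  | _ l ih =>
  intro i S hl hlm hc hS hSR hOS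
  have hvS : ∀ v ∈ verts S, ∃ k : ℕ, k ≤ l ∧ v = Γ (i + (k : ZMod m)) := by
    intro v hv'
    by_contra hne
    have h1 := (h7 Y hY _ _ S hc hS).2.1 v hv' (by
      intro k hk
      exact hne ⟨k.val, by have := ZMod.val_lt k; omega, hk⟩)
    rcases hv v (verts_mono hSR hv') with ⟨j, rfl⟩ | hvO
    · obtain ⟨p, q, hpq⟩ := mem_verts.1 ((h7 Y hY _ _ R hΓ hR).2.2 j).2
      exact (Finset.mem_sdiff.1 hpq).2 (hSR (h1 p q (Finset.mem_sdiff.1 hpq).1))
    · exact hOS (mem_of_isV hS.rot hY.rot (hR.sub hO) h1 hvO)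
  have hval : ∀ a : ℕ, a ≤ l → ((a : ZMod (l + 1))).val = a := fun a ha =>
    ZMod.val_natCast_of_lt (by omega)
  obtain ⟨⟨z, hz⟩, -⟩ := (hS.jump _ _).2 ⟨((l : ℕ) : ZMod (l + 1)), rfl, rfl⟩
  have hl1 : ((l : ℕ) : ZMod (l + 1)) + 1 = 0 := by
    have := ZMod.natCast_self (l + 1)
    push_cast at this
    exact this
  rw [hl1, hval l le_rfl, ZMod.val_zero, Nat.cast_zero, add_zero] at hz
  obtain ⟨k, hk, rfl⟩ := hvS z (third_mem hS.rot hz)
  obtain ⟨hn1, hn2, hn3⟩ := hY.nd (hS.sub hz)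
  have hk0 : k ≠ 0 := by
    rintro rfl
    simp at hn2
  have hkl : k ≠ l := by
    rintro rfl
    exact hn3 rfl
  by_cases hk2 : 2 ≤ k
  · -- cut along the chord from `i` to `i + k`
    obtain ⟨S1, S2, hc1, hS1, -, -, -, hun⟩ := h19 Y hY (l + 1) _ S hc hS
      (((0 : ℕ) : ZMod (l + 1))) k (Γ (i + (l : ZMod m))) hk2 (by omega) (by
        have e1 : ((((0 : ℕ) : ZMod (l + 1))).val : ZMod m) = 0 := by
          rw [hval 0 (by omega)]; simp
        have e2 : (((((0 : ℕ) : ZMod (l + 1)) + (k : ZMod (l + 1))).val : ℕ) : ZMod m) = k := by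
          rw [← Nat.cast_add, zero_add, hval k hk]
        simp only [e1, e2, add_zero]
        exact hS.rot _ _ _ hz)
    have e3 : (fun k_1 : ZMod (k + 1) => Γ (i + (((((0 : ℕ) : ZMod (l + 1)) +
        ((k_1.val : ℕ) : ZMod (l + 1))).val : ℕ) : ZMod m))) =
        fun k_1 : ZMod (k + 1) => Γ (i + (k_1.val : ZMod m)) := by
      funext x
      have hx : x.val < k + 1 := ZMod.val_lt x
      rw [← Nat.cast_add, zero_add, hval _ (by omega)]
    rw [e3] at hc1 hS1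
    have hsub : S1 ⊆ S := hun ▸ Finset.subset_union_left
    obtain ⟨i', hi'⟩ := ih k (by omega) i S1 hk2 (by omega) hc1 hS1 (hsub.trans hSR)
      (fun h => hOS (hsub h))
    exact ⟨i', hsub hi'⟩
  · obtain rfl : k = 1 := by omega
    by_cases hl2 : l = 2
    · subst hl2
      refine ⟨i + 1, ?_⟩
      have := hS.rot _ _ _ hz
      simpa [add_assoc, one_add_one_eq_two] using this
    · obtain ⟨S1, S2, hc1, hS1, -, -, -, hun⟩ := h19 Y hY (l + 1) _ S hc hS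
        (((1 : ℕ) : ZMod (l + 1))) (l - 1) (Γ i) (by omega) (by omega) (by
          have e1 : ((((1 : ℕ) : ZMod (l + 1))).val : ZMod m) = ((1 : ℕ) : ZMod m) := by
            rw [hval 1 (by omega)]
          have e2 : (((((1 : ℕ) : ZMod (l + 1)) + ((l - 1 : ℕ) : ZMod (l + 1))).val : ℕ) : ZMod m)
              = l := by
            rw [← Nat.cast_add, hval _ (by omega)]
            congr 1
            omega
          simp only [e1, e2]
          exact hS.rot _ _ _ (hS.rot _ _ _ hz))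
      have e3 : (fun k_1 : ZMod (l - 1 + 1) => Γ (i + (((((1 : ℕ) : ZMod (l + 1)) +
          ((k_1.val : ℕ) : ZMod (l + 1))).val : ℕ) : ZMod m))) =
          fun k_1 : ZMod (l - 1 + 1) => Γ ((i + 1) + (k_1.val : ZMod m)) := by
        funext x
        have hx : x.val < l - 1 + 1 := ZMod.val_lt x
        rw [← Nat.cast_add, hval _ (by omega)]
        congr 1
        push_cast
        ring
      rw [e3] at hc1 hS1
      have hsub : S1 ⊆ S := hun ▸ Finset.subset_union_left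
      obtain ⟨i', hi'⟩ := ih (l - 1) (by omega) (i + 1) S1 (by omega) (by omega) hc1 hS1
        (hsub.trans hSR) (fun h => hOS (hsub h))
      exact ⟨i', hsub hi'⟩

end W47

open W47 in
/-- W1: a chord gives an ear different from `O` -/
theorem w1 (h7 : A7Stmt) (h19 : A19Stmt) : W1Stmt := by
  intro Y R O m Γ hY hΓ hR hm hO hv ⟨i, j, z, hz, hij, hji⟩
  have : NeZero m := ⟨by omega⟩
  obtain ⟨hn1, hn2, hn3⟩ := hY.nd (hR.sub hz)
  obtain ⟨l, hl⟩ : ∃ l : ℕ, l = (j - i).val := ⟨_, rfl⟩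
  have hlm : l < m := hl ▸ ZMod.val_lt _
  have hj : j = i + (l : ZMod m) := by
    rw [hl, ZMod.natCast_zmod_val]
    ring
  have hl0 : l ≠ 0 := by
    rintro rfl
    exact hn1 (by rw [hj]; simp)
  have hl1 : l ≠ 1 := by
    rintro rfl
    exact hij (by rw [hj]; simp)
  have hlm1 : l ≠ m - 1 := by
    rintro rfl
    apply hji
    rw [hj, Nat.cast_sub (by omega), ZMod.natCast_self]
    ring
  rw [hj] at hz
  obtain ⟨S1, S2, hc1, hS1, hc2, hS2, hd, hun⟩ := h19 Y hY m Γ R hΓ hR i l z (by omega) (by omega) hz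
  have hs1 : S1 ⊆ R := hun ▸ Finset.subset_union_left
  have hs2 : S2 ⊆ R := hun ▸ Finset.subset_union_right
  have key : ∀ S : Finset Tri, O ∉ S → S ⊆ R → RotC S →
      (∃ i, (Γ (i - 1), Γ i, Γ (i + 1)) ∈ S) →
      ∃ i, (Γ (i - 1), Γ i, Γ (i + 1)) ∈ R ∧ (Γ (i - 1), Γ i, Γ (i + 1)) ∉ rots O := by
    rintro S hOS hSR hrot ⟨i, hi⟩
    refine ⟨i, hSR hi, fun h => hOS ?_⟩
    rcases mem_rots.1 h with h | h | h
    · rw [h] at hi
      exact hi
    · rw [h] at hi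
      exact hrot _ _ _ (hrot _ _ _ hi)
    · rw [h] at hi
      exact hrot _ _ _ hi
  by_cases hO1 : O ∈ S1
  · have hO2 : O ∉ S2 := fun h => (Finset.disjoint_left.1 hd) hO1 h
    exact key S2 hO2 hs2 hS2.rot (ear_ind h7 h19 hY hΓ hR hO hv (m - l) (i + (l : ZMod m)) S2
      (by omega) (by omega) hc2 hS2 hs2 hO2)
  · exact key S1 hO1 hs1 hS1.rot (ear_ind h7 h19 hY hΓ hR hO hv l i S1
      (by omega) (by omega) hc1 hS1 hs1 hO1)

end Pool.Agent.H3.RCR
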