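import Pool.Agent.H47.RCR.W1

/-!
# RCR, module W2: without chords there is a slide
-/

namespace Pool.Agent.H3.RCR

namespace W47

/-- the left face of a jump dart is in `R`, the left face of its reverse is not -/
theorem jump_left {F S : Finset Tri} {a b : ℕ} (h : Jump F S a b) : ∃ c, (a, b, c) ∈ S := h.1

theorem jump_right {F S : Finset Tri} (hF : Pre F) (hS : S ⊆ F) {a b : ℕ} (h : Jump F S a b)
    (c : ℕ) : (b, a, c) ∉ S := by
  intro hc
  obtain ⟨-, d, hd, hd'⟩ := h
  rw [hF.uniq _ _ _ _ (hS hc) hd] at hc
  exact hd' hc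

theorem side_jump {F S : Finset Tri} {m : ℕ} {c : ZMod m → ℕ} (h : Side F c S) (i : ZMod m) :
    Jump F S (c i) (c (i + 1)) := (h.jump _ _).2 ⟨i, rfl, rfl⟩

/-- crossing an edge that is not a jump -/
theorem cross {F S : Finset Tri} (hF : Pre F) (hS : S ⊆ F) {a b c : ℕ} (h : (a, b, c) ∈ S)
    (hj : ¬ Jump F S a b) : ∃ d, (b, a, d) ∈ S := by
  obtain ⟨d, hd⟩ := hF.opp _ _ _ (hS h)
  by_contra hne
  exact hj ⟨⟨c, h⟩, d, hd, fun h' => hne ⟨d, h'⟩⟩

end W47

open W47 in
/-- W2: without chords there is a slide -/
theorem w2 : W2Stmt := by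
  intro Y R O m Γ hY hΓ hR hm hO hv hch
  have hm0 : NeZero m := ⟨by omega⟩
  have hP := hY.toPre
  -- consequences for the arithmetic
  have hcast : ∀ a : ℕ, a < m → (a : ZMod m) = 0 → a = 0 := by
    intro a ha h
    rw [ZMod.natCast_eq_zero_iff] at h
    exact Nat.eq_zero_of_dvd_of_lt h ha
  have h1 : (1 : ZMod m) ≠ 0 := fun h => by
    have := hcast 1 (by omega) (by simpa using h)
    omega
  have h2 : (2 : ZMod m) ≠ 0 := fun h => by
    have := hcast 2 (by omega) (by simpa using h)
    omega
  have h3 : (3 : ZMod m) ≠ 0 := fun h => by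
    have := hcast 3 (by omega) (by simpa using h)
    omega
  -- third vertices
  have hz : ∀ k, ∃ z, (Γ k, Γ (k + 1), z) ∈ R := fun k => jump_left (side_jump hR k)
  choose z hz using hz
  have hrev : ∀ k c, (Γ (k + 1), Γ k, c) ∉ R := fun k c => jump_right hP hR.sub (side_jump hR k) c
  have hzn : ∀ k j, z k ≠ Γ j := by
    intro k j hj
    have hk := hz k
    rw [hj] at hk
    have hk1 := hR.rot _ _ _ hk
    have hk2 := hR.rot _ _ _ hk1
    obtain ⟨hn1, hn2, hn3⟩ := hP.nd (hR.sub hk)
    rcases hch _ _ _ hk1 with h | h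
    · rcases hch _ _ _ hk2 with h' | h'
      · apply h3
        have : k = k + 3 := by rw [h, ] at h'; linear_combination h'
        linear_combination -this
      · rw [h] at h'
        apply h1
        linear_combination h'
    · have : j = k := by linear_combination -h
      exact hn3 (by rw [this])
  -- the vertex `z k` is a corner of `O`
  have hzO : ∀ k, isV (z k) O := by
    intro k
    rcases hv (z k) (third_mem hR.rot (hz k)) with ⟨i, hi⟩ | h
    · exact absurd hi (hzn k i)
    · exact h
  by_cases hsl : ∃ i, z (i - 1) = z i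
  · -- a candidate slide
    by_cases hgood : ∃ i, z (i - 1) = z i ∧ (Γ (i - 1), Γ i, z i) ∉ rots O ∧
        (Γ i, Γ (i + 1), z i) ∉ rots O
    · obtain ⟨i, hi, ho1, ho2⟩ := hgood
      refine ⟨i, z i, hzn i, ?_, hz i, ho1, ho2⟩
      have := hz (i - 1)
      rwa [sub_add_cancel, hi] at this
    · -- there is only one corner of `O` off the cycle
      push Not at hgood
      obtain ⟨i, hi⟩ := hsl
      obtain ⟨a, ha⟩ : ∃ a, (Γ a, Γ (a + 1), z a) ∈ rots O := by
        by_cases h : (Γ (i - 1), Γ i, z i) ∈ rots O
        · exact ⟨i - 1, by rwa [sub_add_cancel, hi]⟩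
        · exact ⟨i, hgood i hi h⟩
      -- all corners
      have hall : ∀ k, z k = z a := by
        intro k
        have hk := hzO k
        have hcor : isV (z k) (Γ a, Γ (a + 1), z a) := by
          rcases mem_rots.1 ha with h | h | h <;> rw [h] <;> rcases hk with h | h | h <;>
            simp [isV, h]
        rcases hcor with h | h | h
        · exact absurd h (hzn k a)
        · exact absurd h (hzn k (a + 1))
        · exact h
      have hO' : ∀ k, (Γ k, Γ (k + 1), z a) ∈ rots O → k = a := by
        intro k hk
        have : (Γ k, Γ (k + 1), z a) ∈ rots (Γ a, Γ (a + 1), z a) := by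
          rcases mem_rots.1 ha with h | h | h <;> rcases mem_rots.1 hk with h' | h' | h' <;>
            rw [h, h'] <;> simp [rots]
        rcases mem_rots.1 this with h | h | h
        · exact hΓ.inj (congrArg (fun t : Tri => t.1) h)
        · exact absurd (congrArg (fun t : Tri => t.2.2) h) (hzn a a)
        · exact absurd (congrArg (fun t : Tri => t.2.2) h) (hzn a (a + 1))
      refine ⟨a + 2, z a, hzn a, ?_, ?_, ?_, ?_⟩
      · have := hz (a + 1)
        rw [hall] at this
        convert this using 3 <;> ring_nf
      · have := hz (a + 2)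
        rwa [hall] at this
      · intro h
        have e1 : a + 2 - 1 = a + 1 := by ring
        have e2 : a + 2 = a + 1 + 1 := by ring
        rw [e1, e2] at h
        have := hO' _ h
        exact h1 (by linear_combination this)
      · intro h
        have := hO' _ h
        exact h2 (by linear_combination this)
  · -- no slide: few darts
    exfalso
    push Not at hsl
    have hq : ∀ i, ∃ q, (z i, q, Γ i) ∈ R ∧ isV q O ∧ z i ≠ q ∧ ∀ j, q ≠ Γ j := by
      intro i
      have hi := hz i
      have hi1 : (z i, Γ i, Γ (i + 1)) ∈ R := hR.rot _ _ _ (hR.rot _ _ _ hi)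
      have hnj : ¬ Jump Y R (z i) (Γ i) := by
        rw [hR.jump]
        rintro ⟨j, hj, -⟩
        exact hzn i j hj
      obtain ⟨q, hq⟩ := cross hP hR.sub hi1 hnj
      have hqi : (z i, q, Γ i) ∈ R := hR.rot _ _ _ hq
      have hqn : ∀ j, q ≠ Γ j := by
        rintro j rfl
        have hji : (Γ j, Γ i, z i) ∈ R := hR.rot _ _ _ hqi
        rcases hch _ _ _ hji with h | h
        · apply hsl i
          have h4 := hz (i - 1)
          have e : j = i - 1 := by rw [h]; ring
          rw [sub_add_cancel] at h4
          rw [e] at hji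
          exact hP.uniq _ _ _ _ (hR.sub h4) (hR.sub hji)
        · rw [h] at hji
          exact hrev i _ hji
      refine ⟨q, hqi, ?_, (hP.nd (hR.sub hqi)).1, hqn⟩
      rcases hv q (second_mem hR.rot hqi) with ⟨j, hj⟩ | h
      · exact absurd hj (hqn j)
      · exact h
    choose q hq hqO hzq hqn using hq
    have hinj : Function.Injective (fun i => (z i, q i)) := by
      intro i j hij
      simp only [Prod.mk.injEq] at hij
      have h4 := hq i
      rw [hij.1, hij.2] at h4
      exact hΓ.inj (hP.uniq _ _ _ _ (hR.sub h4) (hR.sub (hq j)))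
    have hcard : ∀ s : Finset (ℕ × ℕ), (∀ i, (z i, q i) ∈ s) → s.card ≤ 3 → False := by
      intro s hs hs3
      have h5 : (Finset.univ.image (fun i : ZMod m => (z i, q i))).card = m := by
        rw [Finset.card_image_of_injective _ hinj, Finset.card_univ, ZMod.card]
      have h6 : (Finset.univ.image (fun i : ZMod m => (z i, q i))).card ≤ s.card :=
        Finset.card_le_card (by
          intro x hx
          obtain ⟨i, -, rfl⟩ := Finset.mem_image.1 hx
          exact hs i)
      omega
    obtain ⟨o1, o2, o3⟩ := O
    obtain ⟨on1, on2, on3⟩ := hP.nd (hR.sub hO)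
    -- the darts
    have hO1 := hO
    have hO2 := hR.rot _ _ _ hO1
    have hO3 := hR.rot _ _ _ hO2
    have direct : ∀ a b c, (a, b, c) ∈ R → (∀ x, isV x (o1, o2, o3) → x = a ∨ x = b ∨ x = c) →
        (∃ i, z i = a ∧ q i = b) → False := by
      rintro a b c habc hx ⟨i, hi1, hi2⟩
      have hc : c = Γ i := by
        have h4 := hq i
        rw [hi1, hi2] at h4
        exact hP.uniq _ _ _ _ (hR.sub habc) (hR.sub h4)
      refine hcard {(a, b), (b, a)} ?_ ((Finset.card_le_two).trans (by norm_num))
      intro j
      have hzj := hx _ (hzO j)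
      have hqj := hx _ (hqO j)
      have g1 : z j ≠ c := fun h => hzn j i (h.trans hc)
      have g2 : q j ≠ c := fun h => hqn j i (h.trans hc)
      have g3 := hzq j
      simp only [Finset.mem_insert, Finset.mem_singleton, Prod.mk.injEq]
      rcases hzj with h | h | h
      · rcases hqj with h' | h' | h'
        · exact absurd (h.trans h'.symm) g3
        · exact Or.inl ⟨h, h'⟩
        · exact absurd h' g2
      · rcases hqj with h' | h' | h'
        · exact Or.inr ⟨h, h'⟩
        · exact absurd (h.trans h'.symm) g3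
        · exact absurd h' g2
      · exact absurd h g1
    have n1 := direct o1 o2 o3 hO1 (fun x hx => hx)
    have n2 := direct o2 o3 o1 hO2 (fun x hx => by
      rcases hx with h | h | h <;> simp [h])
    have n3 := direct o3 o1 o2 hO3 (fun x hx => by
      rcases hx with h | h | h <;> simp [h])
    refine hcard {(o2, o1), (o3, o2), (o1, o3)} ?_ Finset.card_le_three
    intro j
    have g3 := hzq j
    simp only [Finset.mem_insert, Finset.mem_singleton, Prod.mk.injEq]
    rcases hzO j with h | h | h <;> rcases hqO j with h' | h' | h' <;> simp only at h h'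
    · exact absurd (h.trans h'.symm) g3
    · exact absurd ⟨j, h, h'⟩ n1
    · exact Or.inr (Or.inr ⟨h, h'⟩)
    · exact Or.inl ⟨h, h'⟩
    · exact absurd (h.trans h'.symm) g3
    · exact absurd ⟨j, h, h'⟩ n2
    · exact absurd ⟨j, h, h'⟩ n3
    · exact Or.inr (Or.inl ⟨h, h'⟩)
    · exact absurd (h.trans h'.symm) g3

end Pool.Agent.H3.RCR
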