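import Pool.Agent.H47.RCR.W2

/-!
# RCR, module W3: insertions
-/

namespace Pool.Agent.H3.RCR

namespace W47

/-- the side of a 3-cycle containing its face is the face -/
theorem side_face (h7 : A7Stmt) {Y R : Finset Tri} {Γ : ZMod 3 → ℕ} (hY : Sph Y) (hΓ : Cyc Y Γ)
    (hR : Side Y Γ R) {k : ZMod 3} (h : (Γ k, Γ (k + 1), Γ (k + 2)) ∈ R) :
    R = rots (Γ k, Γ (k + 1), Γ (k + 2)) := by
  have hP := hY.toPre
  have hd := (h7 Y hY 3 Γ R hΓ hR).1
  have key := hd (fun t => t ∈ rots (Γ k, Γ (k + 1), Γ (k + 2))) (by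
      intro a b c _ h'
      rcases mem_rots.1 h' with e | e | e <;> simp only [Prod.mk.injEq] at e <;>
        obtain ⟨rfl, rfl, rfl⟩ := e <;> simp [rots]) (by
      intro a b c d _ h1 h'
      exfalso
      have e4 : k + 2 + 1 = k := by
        have : (3 : ZMod 3) = 0 := rfl
        linear_combination this
      have e3 : k + 1 + 1 = k + 2 := by ring
      rcases mem_rots.1 h' with e | e | e <;> simp only [Prod.mk.injEq] at e <;>
        obtain ⟨rfl, rfl, rfl⟩ := e
      · exact jump_right hP hR.sub (side_jump hR k) _ h1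
      · have := side_jump hR (k + 1)
        rw [e3] at this
        exact jump_right hP hR.sub this _ h1
      · have := side_jump hR (k + 2)
        rw [e4] at this
        exact jump_right hP hR.sub this _ h1)
  ext t
  constructor
  · intro ht
    exact key _ h t ht (self_mem_rots _)
  · intro ht
    rcases mem_rots.1 ht with e | e | e <;> rw [e]
    · exact h
    · exact hR.rot _ _ _ h
    · exact hR.rot _ _ _ (hR.rot _ _ _ h)

theorem rots_eq {s t : Tri} (h : s ∈ rots t) : rots s = rots t := by
  obtain ⟨a, b, c⟩ := t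
  rcases mem_rots.1 h with e | e | e <;> subst e <;> ext x <;> simp only [mem_rots] <;> tauto

end W47

open W47 in
/-- W3: insertions -/
theorem w3 (h7 : A7Stmt) : W3Stmt := by
  intro Y R O Γ hY hΓ hR hO hne i
  have hP := hY.toPre
  have hz : ∀ k, ∃ z, (Γ k, Γ (k + 1), z) ∈ R := fun k => jump_left (side_jump hR k)
  choose z hz using hz
  have hzn : ∀ k j, z k ≠ Γ j := by
    intro k j hj
    have hk := hz k
    rw [hj] at hk
    obtain ⟨hn1, hn2, hn3⟩ := hP.nd (hR.sub hk)
    have hjk : j = k + 2 := by
      have g1 : j ≠ k := fun h => hn3 (by rw [h])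
      have g2 : j ≠ k + 1 := fun h => hn2 (by rw [h])
      revert g1 g2
      generalize j = j'
      generalize k = k'
      revert j' k'
      decide
    rw [hjk] at hk
    have := side_face h7 hY hΓ hR hk
    apply hne
    rw [this] at hO ⊢
    exact (rots_eq hO).symm
  by_cases h1 : (Γ i, Γ (i + 1), z i) ∈ rots O
  · refine ⟨i - 1, z (i - 1), Or.inl rfl, hzn _, hz _, ?_⟩
    intro h2
    rw [← rots_eq h1] at h2
    rcases mem_rots.1 h2 with e | e | e <;> simp only [Prod.mk.injEq] at e
    · have := hΓ.inj e.1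
      revert this
      generalize i = i'
      revert i'
      decide
    · exact hzn _ _ e.2.2
    · exact hzn _ _ e.2.2
  · exact ⟨i, z i, Or.inr rfl, hzn i, hz i, h1⟩

end Pool.Agent.H3.RCR
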