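import Pool.Agent.H47.RCR.W4b

/-!
# RCR, module W4: one macro move
-/

namespace Pool.Agent.H3.RCR

namespace W47

theorem assemble {Y R : Finset Tri} {O : Tri} {b r u v x q : ℕ} {w : ZMod b → ℕ} {a : ZMod b}
    (hY : Sph Y) (hsub : R ⊆ Y) (hW : WS Y O w R) (hB : Blk w a r u v x)
    (huq : u = q ∨ Adj Y u q) (hqv : q = v ∨ Adj Y q v) (hqx : q = x ∨ Adj Y q x)
    {X1 X2 : Finset Tri} (hX1 : crs (u, v, q) = X1) (hX2 : crs (v, x, q) = X2)
    (h1 : X1 ⊆ R) (h2 : X2 ⊆ R) (hd : Disjoint X1 X2)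
    (hne : (X1 ∪ X2).Nonempty) (hO1 : O ∉ X1) (hO2 : O ∉ X2) {R' : Finset Tri}
    (hR' : R' = R \ (X1 ∪ X2))
    (hcyc : ∃ (m : ℕ) (Γ : ZMod m → ℕ), Cyc Y Γ ∧ Side Y Γ R')
    (hJ : ∀ y z, Jump Y R' y z ↔ (Jump Y R y z ∧ ¬ (y = u ∧ z = v) ∧ ¬ (y = v ∧ z = x)) ∨
      (y = u ∧ z = q ∧ u ≠ q) ∨ (y = q ∧ z = x ∧ q ≠ x))
    (hJ1 : ¬ Jump Y R u q) (hJ2 : ¬ Jump Y R q x)
    (hv : v ∈ verts R' → ∃ i, v = mv w a q r i) :
    ∃ (n : ℕ) (R' : Finset Tri) (ws : ℕ → ZMod b → ℕ) (Xs : ℕ → Finset Tri), WS Y O (ws n) R' ∧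
      R' ⊂ R ∧ n ≤ b ∧ ws 0 = w ∧ (∀ j < n, SM Y (ws j) (ws (j + 1)) (Xs j)) ∧
      (∀ j ≤ n, ∀ i, ws j i = ws j (i + 1) ∨ Adj Y (ws j i) (ws j (i + 1))) ∧
      (∀ j < n, ∀ j' < n, j ≠ j' → Disjoint (Xs j) (Xs j')) ∧
      ∀ t, (∃ j < n, t ∈ Xs j) ↔ (t ∈ R ∧ t ∉ R') := by
  have hP := hY.toPre
  have hr1 := hB.r1
  have hrb := hB.rb
  have hXst : ∀ j, Xst u v x q r j = (if j = 0 then X1 else ∅) ∪ (if j + 1 = r then X2 else ∅) := by
    intro j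
    rw [Xst, hX1, hX2]
  have hmem : ∀ {t : Tri}, Nd t → t ∈ crs t := fun {t} ht => by
    rw [crs_nd ht]; exact self_mem_rots t
  have hRR : R' ⊆ R := by rw [hR']; exact Finset.sdiff_subset
  refine ⟨r, R', mv w a q, Xst u v x q r, ⟨hcyc, ?_, ?_, ?_⟩, ?_, hrb.le, mv_zero _ _ _, ?_, ?_,
    ?_, ?_⟩
  · exact par_step hP hsub hB hW.par hJ hJ1 hJ2
  · rw [hR', Finset.mem_sdiff, Finset.mem_union]
    exact ⟨hW.mem, fun h => h.elim hO1 hO2⟩
  · intro y hy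
    rcases hW.vert y (verts_mono hRR hy) with ⟨i, rfl⟩ | h
    · left
      by_cases h : (i - a).val < r
      · have : NeZero b := ⟨by omega⟩
        have e : w i = v := by
          have := hB.hv _ h
          rwa [ZMod.natCast_zmod_val, add_sub_cancel] at this
        rw [e] at hy ⊢
        exact hv hy
      · exact ⟨i, by simp only [mv]; rw [if_neg h]⟩
    · exact Or.inr h
  · rw [Finset.ssubset_iff_of_subset hRR]
    obtain ⟨t, ht⟩ := hne
    refine ⟨t, ?_, ?_⟩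
    · rcases Finset.mem_union.1 ht with h | h
      · exact h1 h
      · exact h2 h
    · rw [hR', Finset.mem_sdiff]
      exact fun h => h.2 ht
  · refine sm_step hB ?_ ?_ ?_
    · rcases hqv with h | h
      · exact Or.inl h.symm
      · exact Or.inr (hP.adj_symm h)
    · intro h
      exact hsub (h1 (hX1 ▸ hmem h))
    · intro h
      exact hsub (h2 (hX2 ▸ hmem h))
  · refine adj_step hB ?_ huq hqv hqx
    intro i
    rcases hW.par.step i with h | h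
    · exact Or.inl h
    · obtain ⟨⟨c, hc⟩, -⟩ := h
      exact Or.inr ⟨c, hsub hc⟩
  · intro j hj j' hj' hjj
    have hm : ∀ {i : ℕ} {t : Tri}, t ∈ Xst u v x q r i → (i = 0 ∧ t ∈ X1) ∨ (i + 1 = r ∧ t ∈ X2) := by
      intro i t ht
      rw [hXst] at ht
      rcases Finset.mem_union.1 ht with h | h
      · split_ifs at h with h'
        · exact Or.inl ⟨h', h⟩
        · simp at h
      · split_ifs at h with h'
        · exact Or.inr ⟨h', h⟩
        · simp at h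
    rw [Finset.disjoint_left] at hd ⊢
    intro t ht ht'
    rcases hm ht with ⟨g1, g2⟩ | ⟨g1, g2⟩ <;> rcases hm ht' with ⟨g3, g4⟩ | ⟨g3, g4⟩
    · omega
    · exact hd g2 g4
    · exact hd g4 g2
    · omega
  · intro t
    constructor
    · rintro ⟨j, hj, ht⟩
      rw [hXst] at ht
      have ht' : t ∈ X1 ∪ X2 := by
        rcases Finset.mem_union.1 ht with h | h
        · split_ifs at h
          · exact Finset.mem_union_left _ h
          · simp at h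
        · split_ifs at h
          · exact Finset.mem_union_right _ h
          · simp at h
      refine ⟨?_, ?_⟩
      · rcases Finset.mem_union.1 ht' with h | h
        · exact h1 h
        · exact h2 h
      · rw [hR', Finset.mem_sdiff]
        exact fun h => h.2 ht'
    · rintro ⟨h3, h4⟩
      rw [hR', Finset.mem_sdiff, not_and, not_not] at h4
      rcases Finset.mem_union.1 (h4 h3) with h | h
      · exact ⟨0, by omega, by rw [hXst]; simp [h]⟩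
      · refine ⟨r - 1, by omega, ?_⟩
        rw [hXst, if_pos (by omega : r - 1 + 1 = r)]
        exact Finset.mem_union_right _ h

/-- a vertex of the old cycle that is not on the new cycle is not a vertex of the new region -/
theorem not_vert (h7 : A7Stmt) {Y R R' : Finset Tri} {m m' : ℕ} {Γ : ZMod m → ℕ}
    {Γ' : ZMod m' → ℕ} (hY : Sph Y) (hΓ : Cyc Y Γ) (hR : Side Y Γ R) (hΓ' : Cyc Y Γ')
    (hR' : Side Y Γ' R') (hsub : R' ⊆ R) (k : ZMod m) (hk : ∀ y, ¬ Jump Y R' (Γ k) y) :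
    Γ k ∉ verts R' := by
  intro h
  have h1 := (h7 Y hY _ _ R' hΓ' hR').2.1 (Γ k) h (by
    intro i hi
    apply hk (Γ' (i + 1))
    rw [hi]
    exact side_jump hR' i)
  obtain ⟨p, q, hpq⟩ := mem_verts.1 ((h7 Y hY _ _ R hΓ hR).2.2 k).2
  exact (Finset.mem_sdiff.1 hpq).2 (hsub (h1 p q (Finset.mem_sdiff.1 hpq).1))

theorem nd_rot {a b c : ℕ} (h : a ≠ b ∧ b ≠ c ∧ c ≠ a) : Nd (b, c, a) := ⟨h.2.1, h.2.2, h.1⟩

theorem crs_face {F : Finset Tri} (hF : Pre F) {a b c : ℕ} (h : (a, b, c) ∈ F) :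
    crs (a, b, c) = rots (a, b, c) := crs_nd (hF.nd h)

theorem rots_sub {S : Finset Tri} (hS : RotC S) {t : Tri} (h : t ∈ S) : rots t ⊆ S := by
  obtain ⟨a, b, c⟩ := t
  intro s hs
  rcases mem_rots.1 hs with e | e | e <;> rw [e]
  · exact h
  · exact hS _ _ _ h
  · exact hS _ _ _ (hS _ _ _ h)

theorem not_mem_rots_comm {s t : Tri} (h : s ∉ rots t) : t ∉ rots s := by
  intro h'
  apply h
  rw [rots_eq h']
  exact self_mem_rots s

/-- the case of an ear -/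
theorem w4_ear (h7 : A7Stmt) (h19 : A19Stmt) {Y R : Finset Tri} {O : Tri} {m b : ℕ}
    {Γ : ZMod m → ℕ} {w : ZMod b → ℕ} (hY : Sph Y) (hΓ : Cyc Y Γ) (hR : Side Y Γ R) (hm : 4 ≤ m)
    (hb : 4 ≤ b) (hW : WS Y O w R) {k : ZMod m} (hf : (Γ (k - 1), Γ k, Γ (k + 1)) ∈ R)
    (hfO : (Γ (k - 1), Γ k, Γ (k + 1)) ∉ rots O) :
    ∃ (n : ℕ) (R' : Finset Tri) (ws : ℕ → ZMod b → ℕ) (Xs : ℕ → Finset Tri), WS Y O (ws n) R' ∧
      R' ⊂ R ∧ n ≤ b ∧ ws 0 = w ∧ (∀ j < n, SM Y (ws j) (ws (j + 1)) (Xs j)) ∧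
      (∀ j ≤ n, ∀ i, ws j i = ws j (i + 1) ∨ Adj Y (ws j i) (ws j (i + 1))) ∧
      (∀ j < n, ∀ j' < n, j ≠ j' → Disjoint (Xs j) (Xs j')) ∧
      ∀ t, (∃ j < n, t ∈ Xs j) ↔ (t ∈ R ∧ t ∉ R') := by
  have hP := hY.toPre
  obtain ⟨a, r, hB⟩ := block hΓ hR hb hW.par k
  obtain ⟨⟨m', Γ', hΓ', hR'⟩, hJ, hux⟩ := ear_step h7 h19 hY hΓ hR hm hf
  have hf2 := hR.rot _ _ _ hf
  have hf3 := hR.rot _ _ _ hf2
  obtain ⟨n1, n2, n3⟩ := hP.nd (hR.sub hf)
  have hX1 : crs (Γ (k - 1), Γ k, Γ (k - 1)) = ∅ := crs_ndeg (fun h => absurd rfl h.2.2)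
  have hX2 : crs (Γ k, Γ (k + 1), Γ (k - 1)) = rots (Γ (k - 1), Γ k, Γ (k + 1)) := by
    rw [crs_face hP (hR.sub hf2)]
    exact rots_eq (by simp [rots])
  refine assemble hY hR.sub hW hB (q := Γ (k - 1)) (Or.inl rfl) (Or.inr ⟨_, hR.sub hf⟩)
    (Or.inr (hP.adj_symm ⟨_, hR.sub hf3⟩)) hX1 hX2 (Finset.empty_subset _) (rots_sub hR.rot hf)
    (Finset.disjoint_empty_left _) ⟨_, Finset.mem_union_right _ (self_mem_rots _)⟩
    (Finset.notMem_empty _) (not_mem_rots_comm hfO)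
    (R' := R \ rots (Γ (k - 1), Γ k, Γ (k + 1))) (by rw [Finset.empty_union])
    ⟨m', Γ', hΓ', hR'⟩ ?_ ?_ hux ?_
  · intro y z
    rw [hJ]
    constructor
    · rintro (h | ⟨h1, h2⟩)
      · exact Or.inl h
      · exact Or.inr (Or.inr ⟨h1, h2, fun h => n3 h.symm⟩)
    · rintro (h | ⟨-, -, h⟩ | ⟨h1, h2, -⟩)
      · exact Or.inl h
      · exact absurd rfl h
      · exact Or.inr ⟨h1, h2⟩
  · rintro ⟨⟨c, hc⟩, -⟩
    exact hP.ne _ _ _ (hR.sub hc) rfl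
  · intro h
    exfalso
    refine not_vert h7 hY hΓ hR hΓ' hR' Finset.sdiff_subset k ?_ h
    intro y hy
    rcases (hJ _ _).1 hy with ⟨h1, h2, h3⟩ | ⟨h1, -⟩
    · obtain ⟨i, hi1, hi2⟩ := (hR.jump _ _).1 h1
      exact h3 ⟨rfl, by rw [hi2, ← hΓ.inj hi1]⟩
    · exact n1 h1.symm

/-- the case of a slide -/
theorem w4_slide (h7 : A7Stmt) (h19 : A19Stmt) {Y R : Finset Tri} {O : Tri} {m b : ℕ}
    {Γ : ZMod m → ℕ} {w : ZMod b → ℕ} (hY : Sph Y) (hΓ : Cyc Y Γ) (hR : Side Y Γ R) (hm : 4 ≤ m)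
    (hb : 4 ≤ b) (hW : WS Y O w R) {k : ZMod m} {q : ℕ} (hq : ∀ j, q ≠ Γ j)
    (hf : (Γ (k - 1), Γ k, q) ∈ R) (hg : (Γ k, Γ (k + 1), q) ∈ R)
    (hfO : (Γ (k - 1), Γ k, q) ∉ rots O) (hgO : (Γ k, Γ (k + 1), q) ∉ rots O) :
    ∃ (n : ℕ) (R' : Finset Tri) (ws : ℕ → ZMod b → ℕ) (Xs : ℕ → Finset Tri), WS Y O (ws n) R' ∧
      R' ⊂ R ∧ n ≤ b ∧ ws 0 = w ∧ (∀ j < n, SM Y (ws j) (ws (j + 1)) (Xs j)) ∧
      (∀ j ≤ n, ∀ i, ws j i = ws j (i + 1) ∨ Adj Y (ws j i) (ws j (i + 1))) ∧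
      (∀ j < n, ∀ j' < n, j ≠ j' → Disjoint (Xs j) (Xs j')) ∧
      ∀ t, (∃ j < n, t ∈ Xs j) ↔ (t ∈ R ∧ t ∉ R') := by
  have hP := hY.toPre
  have hm0 : NeZero m := ⟨by omega⟩
  have hcast : ∀ a : ℕ, a < m → (a : ZMod m) = 0 → a = 0 := by
    intro a ha h
    rw [ZMod.natCast_eq_zero_iff] at h
    exact Nat.eq_zero_of_dvd_of_lt h ha
  have h1' : (1 : ZMod m) ≠ 0 := fun h => by
    have := hcast 1 (by omega) (by simpa using h)
    omega
  have h2' : (2 : ZMod m) ≠ 0 := fun h => by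
    have := hcast 2 (by omega) (by simpa using h)
    omega
  obtain ⟨a, r, hB⟩ := block hΓ hR hb hW.par k
  obtain ⟨n1, n2, n3⟩ := hP.nd (hR.sub hf)
  obtain ⟨o1, o2, o3⟩ := hP.nd (hR.sub hg)
  have hux : Γ (k - 1) ≠ Γ (k + 1) := by
    intro h
    have := hΓ.inj h
    apply h2'
    linear_combination -this
  have hk1 : k - 1 + 1 = k := by ring
  have hf' : (Γ (k - 1), Γ (k - 1 + 1), q) ∈ R := by rw [hk1]; exact hf
  obtain ⟨hΓ1, hR1⟩ := ins_step hP hΓ hR hf' hq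
  have hJ1 := ins_jump hP hR hf' hq
  have i0 : ins Γ (k - 1) q 0 = Γ k := by
    simp only [ins]
    rw [if_pos (by rw [ZMod.val_zero]; omega), ZMod.val_zero, Nat.cast_zero, add_zero, hk1]
  have i1 : ins Γ (k - 1) q (0 + 1) = Γ (k + 1) := by
    have : Fact (1 < m + 1) := ⟨by omega⟩
    simp only [ins]
    rw [zero_add, ZMod.val_one, if_pos (by omega), hk1, Nat.cast_one]
  have im : ins Γ (k - 1) q (0 - 1) = q := by
    have e : (0 : ZMod (m + 1)) - 1 = ((m : ℕ) : ZMod (m + 1)) := by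
      have := ZMod.natCast_self (m + 1)
      push_cast at this
      linear_combination -this
    simp only [ins]
    rw [e, ZMod.val_natCast_of_lt (by omega), if_neg (by omega)]
  -- the second face
  have hgne : (Γ k, Γ (k + 1), q) ∉ rots (Γ (k - 1), Γ k, q) := by
    intro h
    rcases mem_rots.1 h with e | e | e <;> simp only [Prod.mk.injEq] at e
    · exact n1 e.1.symm
    · exact n3 e.2.2
    · exact hq _ e.2.2
  have hg3 : (q, Γ k, Γ (k + 1)) ∈ R \ rots (Γ (k - 1), Γ k, q) := by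
    refine Finset.mem_sdiff.2 ⟨hR.rot _ _ _ (hR.rot _ _ _ hg), fun h => hgne ?_⟩
    rw [← rots_eq h]
    simp [rots]
  rw [hk1] at hR1 hJ1
  have hear : (ins Γ (k - 1) q (0 - 1), ins Γ (k - 1) q 0, ins Γ (k - 1) q (0 + 1)) ∈
      R \ rots (Γ (k - 1), Γ k, q) := by
    rw [i0, i1, im]; exact hg3
  obtain ⟨⟨m', Γ', hΓ', hR'⟩, hJ, -⟩ := ear_step h7 h19 hY hΓ1 hR1 (by omega) hear
  rw [i0, i1, im] at hR' hJ
  have hX1 : crs (Γ (k - 1), Γ k, q) = rots (Γ (k - 1), Γ k, q) := crs_face hP (hR.sub hf)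
  have hX2 : crs (Γ k, Γ (k + 1), q) = rots (Γ k, Γ (k + 1), q) := crs_face hP (hR.sub hg)
  have hrr : rots (q, Γ k, Γ (k + 1)) = rots (Γ k, Γ (k + 1), q) := rots_eq (by simp [rots])
  have hdis : Disjoint (rots (Γ (k - 1), Γ k, q)) (rots (Γ k, Γ (k + 1), q)) := by
    rw [Finset.disjoint_left]
    intro t ht1 ht2
    apply hgne
    rw [← rots_eq ht1, rots_eq ht2]
    exact self_mem_rots _
  have hqj : ∀ y, ¬ Jump Y R q y := by
    intro y h
    obtain ⟨i, hi, -⟩ := (hR.jump _ _).1 h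
    exact hq i hi
  have hqj' : ∀ y, ¬ Jump Y R y q := by
    intro y h
    obtain ⟨i, -, hi⟩ := (hR.jump _ _).1 h
    exact hq _ hi
  have hset : (R \ rots (Γ (k - 1), Γ k, q)) \ rots (q, Γ k, Γ (k + 1)) =
      R \ (rots (Γ (k - 1), Γ k, q) ∪ rots (Γ k, Γ (k + 1), q)) := by
    rw [hrr]
    ext t
    simp only [Finset.mem_sdiff, Finset.mem_union]
    tauto
  have hJ' : ∀ y z, Jump Y ((R \ rots (Γ (k - 1), Γ k, q)) \ rots (q, Γ k, Γ (k + 1))) y z ↔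
      (Jump Y R y z ∧ ¬ (y = Γ (k - 1) ∧ z = Γ k) ∧ ¬ (y = Γ k ∧ z = Γ (k + 1))) ∨
      (y = Γ (k - 1) ∧ z = q ∧ Γ (k - 1) ≠ q) ∨ (y = q ∧ z = Γ (k + 1) ∧ q ≠ Γ (k + 1)) := by
    intro y z
    rw [hJ, hJ1]
    constructor
    · rintro (⟨⟨h1, h2⟩ | ⟨rfl, rfl⟩ | ⟨rfl, rfl⟩, h3, h4⟩ | ⟨rfl, rfl⟩)
      · exact Or.inl ⟨h1, h2, h4⟩
      · exact Or.inr (Or.inl ⟨rfl, rfl, fun h => n3 h.symm⟩)
      · exact absurd ⟨rfl, rfl⟩ h3
      · exact Or.inr (Or.inr ⟨rfl, rfl, fun h => o2 h.symm⟩)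
    · rintro (⟨h1, h2, h3⟩ | ⟨rfl, rfl, -⟩ | ⟨rfl, rfl, -⟩)
      · refine Or.inl ⟨Or.inl ⟨h1, h2⟩, ?_, h3⟩
        rintro ⟨rfl, -⟩
        exact hqj _ h1
      · refine Or.inl ⟨Or.inr (Or.inl ⟨rfl, rfl⟩), ?_, ?_⟩
        · rintro ⟨h, -⟩
          exact n3 h.symm
        · rintro ⟨h, -⟩
          exact n1 h
      · exact Or.inr ⟨rfl, rfl⟩
  refine assemble hY hR.sub hW hB (q := q) (Or.inr (hP.adj_symm ⟨_, hR.sub (hR.rot _ _ _
    (hR.rot _ _ _ hf))⟩)) (Or.inr (hP.adj_symm ⟨_, hR.sub (hR.rot _ _ _ hf)⟩))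
    (Or.inr (hP.adj_symm ⟨_, hR.sub (hR.rot _ _ _ hg)⟩)) hX1 hX2 (rots_sub hR.rot hf)
    (rots_sub hR.rot hg) hdis ⟨_, Finset.mem_union_left _ (self_mem_rots _)⟩
    (not_mem_rots_comm hfO) (not_mem_rots_comm hgO)
    (R' := (R \ rots (Γ (k - 1), Γ k, q)) \ rots (q, Γ k, Γ (k + 1))) hset
    ⟨m', Γ', hΓ', hR'⟩ hJ' (hqj' _) (hqj _) ?_
  intro h
  exfalso
  refine not_vert h7 hY hΓ hR hΓ' hR' (Finset.sdiff_subset.trans Finset.sdiff_subset) k ?_ h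
  intro y hy
  rcases (hJ' _ _).1 hy with ⟨h1, h2, h3⟩ | ⟨h1, -⟩ | ⟨h1, -⟩
  · obtain ⟨i, hi1, hi2⟩ := (hR.jump _ _).1 h1
    exact h3 ⟨rfl, by rw [hi2, ← hΓ.inj hi1]⟩
  · exact n1 h1.symm
  · exact hq _ h1.symm

/-- the case of an insertion -/
theorem w4_ins {Y R : Finset Tri} {O : Tri} {m b : ℕ}
    {Γ : ZMod m → ℕ} {w : ZMod b → ℕ} (hY : Sph Y) (hΓ : Cyc Y Γ) (hR : Side Y Γ R)
    (hW : WS Y O w R) {j : ZMod m} {q u v x : ℕ} {a : ZMod b} (hq : ∀ j, q ≠ Γ j)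
    (hf : (Γ j, Γ (j + 1), q) ∈ R) (hfO : (Γ j, Γ (j + 1), q) ∉ rots O)
    (hB : Blk w a 1 u v x)
    (hc : (u = v ∧ v = Γ j ∧ x = Γ (j + 1)) ∨ (u = Γ j ∧ v = x ∧ x = Γ (j + 1)))
    (hv : ∃ i, v = mv w a q 1 i) :
    ∃ (n : ℕ) (R' : Finset Tri) (ws : ℕ → ZMod b → ℕ) (Xs : ℕ → Finset Tri), WS Y O (ws n) R' ∧
      R' ⊂ R ∧ n ≤ b ∧ ws 0 = w ∧ (∀ j < n, SM Y (ws j) (ws (j + 1)) (Xs j)) ∧
      (∀ j ≤ n, ∀ i, ws j i = ws j (i + 1) ∨ Adj Y (ws j i) (ws j (i + 1))) ∧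
      (∀ j < n, ∀ j' < n, j ≠ j' → Disjoint (Xs j) (Xs j')) ∧
      ∀ t, (∃ j < n, t ∈ Xs j) ↔ (t ∈ R ∧ t ∉ R') := by
  have hP := hY.toPre
  obtain ⟨n1, n2, n3⟩ := hP.nd (hR.sub hf)
  obtain ⟨hΓ', hR'⟩ := ins_step hP hΓ hR hf hq
  have hJ := ins_jump hP hR hf hq
  have hqj : ∀ y, ¬ Jump Y R q y := by
    intro y h
    obtain ⟨i, hi, -⟩ := (hR.jump _ _).1 h
    exact hq i hi
  have hqj' : ∀ y, ¬ Jump Y R y q := by
    intro y h
    obtain ⟨i, -, hi⟩ := (hR.jump _ _).1 h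
    exact hq _ hi
  have hvv : ∀ y, ¬ Jump Y R y y := by
    rintro y ⟨⟨c, hc⟩, -⟩
    exact hP.ne _ _ _ (hR.sub hc) rfl
  have a1 : Adj Y (Γ j) q := hP.adj_symm ⟨_, hR.sub (hR.rot _ _ _ (hR.rot _ _ _ hf))⟩
  have a2 : Adj Y q (Γ (j + 1)) := hP.adj_symm ⟨_, hR.sub (hR.rot _ _ _ hf)⟩
  rcases hc with ⟨rfl, rfl, rfl⟩ | ⟨rfl, rfl, rfl⟩
  · refine assemble hY hR.sub hW hB (q := q) (Or.inr a1) (Or.inr (hP.adj_symm a1)) (Or.inr a2)
      (X1 := ∅) (X2 := rots (Γ j, Γ (j + 1), q)) (crs_ndeg (fun h => absurd rfl h.1))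
      (crs_face hP (hR.sub hf)) (Finset.empty_subset _) (rots_sub hR.rot hf)
      (Finset.disjoint_empty_left _) ⟨_, Finset.mem_union_right _ (self_mem_rots _)⟩
      (Finset.notMem_empty _) (not_mem_rots_comm hfO)
      (R' := R \ rots (Γ j, Γ (j + 1), q)) (by rw [Finset.empty_union])
      ⟨_, _, hΓ', hR'⟩ ?_ (hqj' _) (hqj _) (fun _ => hv)
    intro y z
    rw [hJ]
    constructor
    · rintro (⟨h1, h2⟩ | ⟨rfl, rfl⟩ | ⟨rfl, rfl⟩)
      · refine Or.inl ⟨h1, ?_, h2⟩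
        rintro ⟨rfl, rfl⟩
        exact hvv _ h1
      · exact Or.inr (Or.inl ⟨rfl, rfl, fun h => n3 h.symm⟩)
      · exact Or.inr (Or.inr ⟨rfl, rfl, fun h => n2 h.symm⟩)
    · rintro (⟨h1, h2, h3⟩ | ⟨rfl, rfl, -⟩ | ⟨rfl, rfl, -⟩)
      · exact Or.inl ⟨h1, h3⟩
      · exact Or.inr (Or.inl ⟨rfl, rfl⟩)
      · exact Or.inr (Or.inr ⟨rfl, rfl⟩)
  · refine assemble hY hR.sub hW hB (q := q) (Or.inr a1) (Or.inr a2) (Or.inr a2)
      (X1 := rots (Γ j, Γ (j + 1), q)) (X2 := ∅) (crs_face hP (hR.sub hf))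
      (crs_ndeg (fun h => absurd rfl h.1)) (rots_sub hR.rot hf) (Finset.empty_subset _)
      (Finset.disjoint_empty_right _) ⟨_, Finset.mem_union_left _ (self_mem_rots _)⟩
      (not_mem_rots_comm hfO) (Finset.notMem_empty _)
      (R' := R \ rots (Γ j, Γ (j + 1), q)) (by rw [Finset.union_empty])
      ⟨_, _, hΓ', hR'⟩ ?_ (hqj' _) (hqj _) (fun _ => hv)
    intro y z
    rw [hJ]
    constructor
    · rintro (⟨h1, h2⟩ | ⟨rfl, rfl⟩ | ⟨rfl, rfl⟩)
      · refine Or.inl ⟨h1, h2, ?_⟩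
        rintro ⟨rfl, rfl⟩
        exact hvv _ h1
      · exact Or.inr (Or.inl ⟨rfl, rfl, fun h => n3 h.symm⟩)
      · exact Or.inr (Or.inr ⟨rfl, rfl, fun h => n2 h.symm⟩)
    · rintro (⟨h1, h2, h3⟩ | ⟨rfl, rfl, -⟩ | ⟨rfl, rfl, -⟩)
      · exact Or.inl ⟨h1, h2⟩
      · exact Or.inr (Or.inl ⟨rfl, rfl⟩)
      · exact Or.inr (Or.inr ⟨rfl, rfl⟩)

end W47

open W47 in
/-- W4: one macro move -/
theorem w4 (h7 : A7Stmt) (h19 : A19Stmt) : W4Stmt := by
  intro Y R O b w hY hb hW hne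
  have hP := hY.toPre
  obtain ⟨m, Γ, hΓ, hR⟩ := hW.cyc
  have hm3 := hΓ.three
  have hvt : ∀ v ∈ verts R, (∃ i, v = Γ i) ∨ isV v O := by
    intro v hv
    rcases hW.vert v hv with ⟨i, rfl⟩ | h
    · exact Or.inl (slot_mem hΓ hR hb hW.par i)
    · exact Or.inr h
  by_cases hm : 4 ≤ m
  · by_cases hch : ∃ i j z, (Γ i, Γ j, z) ∈ R ∧ j ≠ i + 1 ∧ i ≠ j + 1
    · obtain ⟨k, hk1, hk2⟩ := w1 h7 h19 Y R O m Γ hY hΓ hR hm hW.mem hvt hch
      exact w4_ear h7 h19 hY hΓ hR hm hb hW hk1 hk2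
    · push Not at hch
      obtain ⟨k, q, hq, hf, hg, hfO, hgO⟩ := w2 Y R O m Γ hY hΓ hR hm hW.mem hvt (by
        intro i j z hz
        by_cases h : j = i + 1
        · exact Or.inl h
        · exact Or.inr (hch i j z hz h))
      exact w4_slide h7 h19 hY hΓ hR hm hb hW hq hf hg hfO hgO
  · obtain rfl : m = 3 := by omega
    have : NeZero b := ⟨by omega⟩
    -- a repeated slot
    obtain ⟨e, he⟩ : ∃ e, w e = w (e + 1) := by
      by_contra hcon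
      push Not at hcon
      have hj : ∀ e, ∃ i, w e = Γ i ∧ w (e + 1) = Γ (i + 1) := fun e =>
        (hR.jump _ _).1 ((hW.par.step e).resolve_left (hcon e))
      choose f hf1 hf2 using hj
      have hinj : Function.Injective f := by
        intro e e' h
        exact hW.par.uniq e e' (hcon e) (by rw [hf1, hf1, h]) (by rw [hf2, hf2, h])
      have := Fintype.card_le_of_injective f hinj
      rw [ZMod.card, ZMod.card] at this
      omega
    obtain ⟨i, hi⟩ := slot_mem hΓ hR hb hW.par e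
    obtain ⟨a, r, hB⟩ := block hΓ hR hb hW.par i
    -- the last slot of the block of `e`
    have hii : Γ i ≠ Γ (i + 1) := hP.adj_ne (hΓ.adj i)
    have hii' : Γ (i - 1) ≠ Γ i := by
      have := hP.adj_ne (hΓ.adj (i - 1))
      rwa [sub_add_cancel] at this
    have hr2 : 2 ≤ r := by
      by_contra hr
      have hr1 : r = 1 := by have := hB.r1; omega
      subst hr1
      have hw0 : w a = Γ i := by
        have := hB.hv 0 (by omega)
        simpa using this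
      have hw1 : w (a + 1) = Γ (i + 1) := by
        have := hB.hx
        simpa using this
      -- walk from `e` to the end of its block
      have hex : ∃ n : ℕ, w (e + (n : ZMod b)) ≠ Γ i := by
        refine ⟨(a + 1 - e).val, ?_⟩
        rw [ZMod.natCast_zmod_val, add_sub_cancel, hw1]
        exact hii.symm
      classical
      set n := Nat.find hex with hn
      have hspec : w (e + (n : ZMod b)) ≠ Γ i := Nat.find_spec hex
      have hmin : ∀ s < n, w (e + (s : ZMod b)) = Γ i := fun s hs =>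
        not_not.1 (Nat.find_min hex hs)
      have hn2 : 2 ≤ n := by
        by_contra h
        have h0 : n = 0 ∨ n = 1 := by omega
        rcases h0 with h0 | h0
        · rw [h0, Nat.cast_zero, add_zero] at hspec
          exact hspec hi
        · rw [h0, Nat.cast_one, ← he] at hspec
          exact hspec hi
      have hll : e + ((n - 1 : ℕ) : ZMod b) + 1 = e + (n : ZMod b) := by
        rw [Nat.cast_sub (by omega)]; push_cast; ring
      have hlast := hmin (n - 1) (by omega)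
      have hprev := hmin (n - 2) (by omega)
      have hjmp : Jump Y R (Γ i) (w (e + (n : ZMod b))) := by
        rcases hW.par.step (e + ((n - 1 : ℕ) : ZMod b)) with h | h
        · rw [hll, hlast] at h
          exact absurd h.symm hspec
        · rwa [hll, hlast] at h
      obtain ⟨i', hi1, hi2⟩ := (hR.jump _ _).1 hjmp
      rw [← hΓ.inj hi1] at hi2
      have heq := hW.par.uniq (e + ((n - 1 : ℕ) : ZMod b)) a
        (by rw [hll, hlast, hi2]; exact hii) (by rw [hlast, hw0]) (by rw [hll, hi2, hw1])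
      have : a - 1 = e + ((n - 2 : ℕ) : ZMod b) := by
        rw [← heq, Nat.cast_sub (by omega), Nat.cast_sub (by omega)]; push_cast; ring
      rw [← this, hB.hu] at hprev
      exact hii' hprev
    have hw0 : w a = Γ i := by
      have := hB.hv 0 (by omega)
      simpa using this
    have hrb := hB.rb
    obtain ⟨j, q, hj, hq, hf, hfO⟩ := w3 h7 Y R O Γ hY hΓ hR hW.mem hne i
    rcases hj with rfl | rfl
    · -- move the first slot of the block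
      have hw1 : w (a + 1) = Γ i := by
        have := hB.hv 1 (by omega)
        simpa using this
      refine w4_ins hY hΓ hR hW hq hf hfO (a := a) (u := Γ (i - 1)) (v := Γ i) (x := Γ i)
        ⟨le_rfl, by omega, hB.hu, ?_, ?_⟩ (Or.inr ⟨rfl, rfl, by rw [sub_add_cancel]⟩)
        ⟨a + 1, ?_⟩
      · intro s hs
        obtain rfl : s = 0 := by omega
        simpa using hw0
      · simpa using hw1
      · have := mv_add w a q 1 1 (by omega)
        rw [Nat.cast_one, if_neg (by omega)] at this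
        rw [this, hw1]
    · -- move the last slot of the block
      have hl1 : w (a + ((r - 1 : ℕ) : ZMod b)) = Γ j := hB.hv _ (by omega)
      have hl2 : w (a + ((r - 2 : ℕ) : ZMod b)) = Γ j := hB.hv _ (by omega)
      have e1 : a + ((r - 1 : ℕ) : ZMod b) - 1 = a + ((r - 2 : ℕ) : ZMod b) := by
        rw [Nat.cast_sub (by omega), Nat.cast_sub (by omega)]; push_cast; ring
      have e2 : a + ((r - 1 : ℕ) : ZMod b) + 1 = a + (r : ZMod b) := by
        rw [Nat.cast_sub (by omega)]; push_cast; ring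
      refine w4_ins hY hΓ hR hW hq hf hfO (a := a + ((r - 1 : ℕ) : ZMod b)) (u := Γ j)
        (v := Γ j) (x := Γ (j + 1)) ⟨le_rfl, by omega, by rw [e1, hl2], ?_, ?_⟩
        (Or.inl ⟨rfl, rfl, rfl⟩) ⟨a + ((r - 2 : ℕ) : ZMod b), ?_⟩
      · intro s hs
        obtain rfl : s = 0 := by omega
        simpa using hl1
      · rw [Nat.cast_one, e2, hB.hx]
      · rcases cls w (a + ((r - 1 : ℕ) : ZMod b)) (a + ((r - 2 : ℕ) : ZMod b)) q le_rfl
          (by omega : 1 < b) with ⟨-, h, -⟩ | ⟨⟨t, ht, -⟩, -⟩ | ⟨h, -⟩ | ⟨-, h, -⟩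
        · rw [h, hl2]
        · omega
        · exfalso
          rw [Nat.sub_self, Nat.cast_zero, add_zero] at h
          have := congrArg ZMod.val (add_left_cancel h)
          rw [ZMod.val_natCast_of_lt (by omega), ZMod.val_natCast_of_lt (by omega)] at this
          omega
        · rw [h, hl2]

end Pool.Agent.H3.RCR
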