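import Pool.Agent.H47.RCR.W4

/-!
# RCR, module W5: the sweep theorem
-/

namespace Pool.Agent.H3.RCR

namespace W47

/-- a sequence of `N` slot moves from `w` to `w'`, crossing every face of `A` once -/
def Seg (Y : Finset Tri) {b : ℕ} (w w' : ZMod b → ℕ) (A : Finset Tri) (N : ℕ) : Prop :=
  ∃ (ws : ℕ → ZMod b → ℕ) (Xs : ℕ → Finset Tri), ws 0 = w ∧ ws N = w' ∧
    (∀ j < N, SM Y (ws j) (ws (j + 1)) (Xs j)) ∧
    (∀ j ≤ N, ∀ i, ws j i = ws j (i + 1) ∨ Adj Y (ws j i) (ws j (i + 1))) ∧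
    (∀ j < N, ∀ j' < N, j ≠ j' → Disjoint (Xs j) (Xs j')) ∧
    ∀ t, (∃ j < N, t ∈ Xs j) ↔ t ∈ A

theorem seg_refl {Y : Finset Tri} {b : ℕ} {w : ZMod b → ℕ}
    (hw : ∀ i, w i = w (i + 1) ∨ Adj Y (w i) (w (i + 1))) : Seg Y w w ∅ 0 := by
  refine ⟨fun _ => w, fun _ => ∅, rfl, rfl, ?_, ?_, ?_, ?_⟩
  · intro j hj; omega
  · intro j _; exact hw
  · intro j hj; omega
  · simp

theorem seg_one {Y : Finset Tri} {b : ℕ} {w : ZMod b → ℕ}
    (hw : ∀ i, w i = w (i + 1) ∨ Adj Y (w i) (w (i + 1))) : Seg Y w w ∅ 1 := by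
  refine ⟨fun _ => w, fun _ => ∅, rfl, rfl, ?_, ?_, ?_, ?_⟩
  · intro j _
    refine ⟨0, w 0, by simp, Or.inl rfl, ?_, ?_, ?_⟩
    · intro h; exact absurd rfl h.2.1
    · intro h; exact absurd rfl h.2.2
    · rw [crs_ndeg (fun h => absurd rfl h.2.1), crs_ndeg (fun h => absurd rfl h.2.2)]
      simp
  · intro j _; exact hw
  · intro j hj j' hj' h; omega
  · simp

theorem seg_trans {Y : Finset Tri} {b : ℕ} {w w' w'' : ZMod b → ℕ} {A B : Finset Tri} {N N' : ℕ}
    (h : Seg Y w w' A N) (h' : Seg Y w' w'' B N') (hd : Disjoint A B) :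
    Seg Y w w'' (A ∪ B) (N + N') := by
  obtain ⟨ws, Xs, h0, hN, hm, ha, hdis, hc⟩ := h
  obtain ⟨ws', Xs', h0', hN', hm', ha', hdis', hc'⟩ := h'
  have e1 : ∀ j, j ≤ N → (if j < N then ws j else ws' (j - N)) = ws j := by
    intro j hj
    by_cases h : j < N
    · rw [if_pos h]
    · obtain rfl : j = N := by omega
      rw [if_neg h, Nat.sub_self, h0', hN]
  have e2 : ∀ j, N ≤ j → (if j < N then ws j else ws' (j - N)) = ws' (j - N) := by
    intro j hj
    rw [if_neg (by omega)]
  refine ⟨fun j => if j < N then ws j else ws' (j - N),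
    fun j => if j < N then Xs j else Xs' (j - N), ?_, ?_, ?_, ?_, ?_, ?_⟩
  · beta_reduce
    rw [e1 0 (by omega), h0]
  · beta_reduce
    rw [e2 _ (by omega), Nat.add_sub_cancel_left, hN']
  · intro j hj
    by_cases h : j < N
    · simp only [e1 j h.le, e1 (j + 1) h, if_pos h]
      exact hm j h
    · simp only [e2 j (by omega), e2 (j + 1) (by omega), if_neg h]
      have : j + 1 - N = j - N + 1 := by omega
      rw [this]
      exact hm' _ (by omega)
  · intro j hj
    by_cases h : j < N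
    · simp only [e1 j h.le]
      exact ha j h.le
    · simp only [e2 j (by omega)]
      exact ha' _ (by omega)
  · have hAB : ∀ i < N, ∀ i' < N', Disjoint (Xs i) (Xs' i') := by
      intro i hi i' hi'
      rw [Finset.disjoint_left]
      intro t ht ht'
      exact Finset.disjoint_left.1 hd ((hc t).1 ⟨i, hi, ht⟩) ((hc' t).1 ⟨i', hi', ht'⟩)
    intro j hj j' hj' hjj
    by_cases h : j < N <;> by_cases h' : j' < N
    · simp only [if_pos h, if_pos h']
      exact hdis j h j' h' hjj
    · simp only [if_pos h, if_neg h']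
      exact hAB j h _ (by omega)
    · simp only [if_neg h, if_pos h']
      exact (hAB j' h' _ (by omega)).symm
    · simp only [if_neg h, if_neg h']
      exact hdis' _ (by omega) _ (by omega) (by omega)
  · intro t
    rw [Finset.mem_union, ← hc, ← hc']
    constructor
    · rintro ⟨j, hj, ht⟩
      beta_reduce at ht
      by_cases h : j < N
      · rw [if_pos h] at ht
        exact Or.inl ⟨j, h, ht⟩
      · rw [if_neg h] at ht
        exact Or.inr ⟨_, by omega, ht⟩
    · rintro (⟨j, hj, ht⟩ | ⟨j, hj, ht⟩)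
      · exact ⟨j, by omega, by beta_reduce; rw [if_pos hj]; exact ht⟩
      · exact ⟨N + j, by omega, by
          beta_reduce
          rw [if_neg (by omega), Nat.add_sub_cancel_left]
          exact ht⟩

theorem seg_pad {Y : Finset Tri} {b : ℕ} {w : ZMod b → ℕ}
    (hw : ∀ i, w i = w (i + 1) ∨ Adj Y (w i) (w (i + 1))) : ∀ n, Seg Y w w ∅ n
  | 0 => seg_refl hw
  | n + 1 => by
    have := seg_trans (seg_pad hw n) (seg_one hw) (Finset.disjoint_empty_left _)
    simpa using this

theorem card_rots {F : Finset Tri} (hF : Pre F) {t : Tri} (ht : t ∈ F) : (rots t).card = 3 := by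
  obtain ⟨a, b, c⟩ := t
  obtain ⟨h1, h2, h3⟩ := hF.nd ht
  rw [rots, Finset.card_eq_three]
  refine ⟨_, _, _, ?_, ?_, ?_, rfl⟩
  · intro h
    exact h1 (congrArg (fun t : Tri => t.1) h)
  · intro h
    exact h3 (congrArg (fun t : Tri => t.1) h).symm
  · intro h
    exact h2 (congrArg (fun t : Tri => t.1) h)

theorem card_drop {F R R' : Finset Tri} (hF : Pre F) (hR : R ⊆ F) (hrot : RotC R)
    (hrot' : RotC R') (h : R' ⊂ R) : R'.card + 3 ≤ R.card := by
  obtain ⟨t, ht, ht'⟩ := Finset.exists_of_ssubset h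
  have h1 : R' ∪ rots t ⊆ R := Finset.union_subset h.1 (rots_sub hrot ht)
  have h2 : Disjoint R' (rots t) := by
    rw [Finset.disjoint_left]
    intro s hs hs'
    apply ht'
    apply rots_sub hrot' hs
    rw [rots_eq hs']
    exact self_mem_rots t
  have := Finset.card_le_card h1
  rw [Finset.card_union_of_disjoint h2, card_rots hF (hR ht)] at this
  exact this

theorem iter (h4 : W4Stmt) {Y : Finset Tri} {O : Tri} {b : ℕ} (hY : Sph Y) (hb : 4 ≤ b) :
    ∀ (n : ℕ) (R : Finset Tri) (w : ZMod b → ℕ), R.card ≤ 3 * n → WS Y O w R →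
      ∃ N w', N ≤ b * n ∧ Seg Y w w' (R \ rots O) N ∧ Par Y w' (rots O) := by
  intro n
  induction n with
  | zero =>
    intro R w hc hW
    exfalso
    have : R = ∅ := Finset.card_eq_zero.1 (by omega)
    have h := hW.mem
    rw [this] at h
    simp at h
  | succ n ih =>
    intro R w hc hW
    obtain ⟨m, Γ, hΓ, hR⟩ := hW.cyc
    have hadj : ∀ i, w i = w (i + 1) ∨ Adj Y (w i) (w (i + 1)) := by
      intro i
      rcases hW.par.step i with h | ⟨⟨c, hc⟩, -⟩
      · exact Or.inl h
      · exact Or.inr ⟨c, hR.sub hc⟩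
    by_cases hRO : R = rots O
    · refine ⟨0, w, by omega, ?_, hRO ▸ hW.par⟩
      rw [hRO, Finset.sdiff_self]
      exact seg_refl hadj
    · obtain ⟨n0, R', ws, Xs, hW', hsub, hn0, h0, hm, ha, hd, hc'⟩ :=
        h4 Y R O b w hY hb hW hRO
      obtain ⟨m', Γ', hΓ', hR'⟩ := hW'.cyc
      have hdrop := card_drop hY.toPre hR.sub hR.rot hR'.rot hsub
      obtain ⟨N, w', hN, hs, hp⟩ := ih R' (ws n0) (by omega) hW'
      refine ⟨n0 + N, w', ?_, ?_, hp⟩
      · have : b * (n + 1) = b * n + b := by ring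
        omega
      · have hOR' : rots O ⊆ R' := rots_sub hR'.rot hW'.mem
        have e : R \ rots O = (R \ R') ∪ (R' \ rots O) := by
          ext t
          simp only [Finset.mem_sdiff, Finset.mem_union]
          constructor
          · rintro ⟨h1, h2⟩
            by_cases h : t ∈ R'
            · exact Or.inr ⟨h, h2⟩
            · exact Or.inl ⟨h1, h⟩
          · rintro (⟨h1, h2⟩ | ⟨h1, h2⟩)
            · exact ⟨h1, fun h => h2 (hOR' h)⟩
            · exact ⟨hsub.1 h1, h2⟩
        rw [e]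
        refine seg_trans ⟨ws, Xs, h0, rfl, hm, ha, hd, ?_⟩ hs ?_
        · intro t
          rw [hc', Finset.mem_sdiff]
        · rw [Finset.disjoint_left]
          intro t h1 h2
          exact (Finset.mem_sdiff.1 h1).2 (Finset.mem_sdiff.1 h2).1

theorem cyc_neg {F : Finset Tri} (hF : Pre F) {m : ℕ} {c : ZMod m → ℕ} (h : Cyc F c) :
    Cyc F (fun i => c (-i)) := by
  refine ⟨h.three, fun i j hij => neg_injective (h.inj hij), fun i => ?_⟩
  have := h.adj (-(i + 1))
  have e : -(i + 1) + 1 = -i := by ring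
  rw [e] at this
  exact hF.adj_symm this

end W47

open W47 in
/-- W5: the sweep theorem -/
theorem w5 (h4 : W4Stmt) (h6 : A6Stmt) (h8 : A8Stmt) : W5Stmt := by
  intro Y D b C O hY hb hC hD hO hOD hv
  have hP := hY.toPre
  have hC' := cyc_neg hP hC
  have hS : Side Y C (Y \ D) := by
    have := (h6 Y hY b (fun i => C (-i))).2 D hD
    simpa using this
  have hCD : ∀ i, C i ∈ verts D := by
    intro i
    obtain ⟨⟨c, hc⟩, -⟩ := side_jump hD (-i)
    simp only [neg_neg] at hc
    exact mem_verts.2 ⟨_, _, hc⟩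
  have hcard : (Y \ D).card ≤ 3 * (b + 4) := by
    have h1 := h8 Y hY b (fun i => C (-i)) D hC' hD
    have h2 := hY.euler
    have h3 : (verts Y).card ≤ (verts D).card + 3 := by
      have : verts Y ⊆ verts D ∪ {O.1, O.2.1, O.2.2} := by
        intro v hv'
        obtain ⟨p, q, hpq⟩ := mem_verts.1 hv'
        by_cases h : (v, p, q) ∈ D
        · exact Finset.mem_union_left _ (mem_verts.2 ⟨p, q, h⟩)
        · rcases hv v (mem_verts.2 ⟨p, q, Finset.mem_sdiff.2 ⟨hpq, h⟩⟩) with ⟨i, rfl⟩ | h'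
          · exact Finset.mem_union_left _ (hCD i)
          · refine Finset.mem_union_right _ ?_
            simp only [Finset.mem_insert, Finset.mem_singleton]
            exact h'
      calc (verts Y).card ≤ (verts D ∪ {O.1, O.2.1, O.2.2}).card := Finset.card_le_card this
        _ ≤ (verts D).card + ({O.1, O.2.1, O.2.2} : Finset ℕ).card := Finset.card_union_le _ _
        _ ≤ (verts D).card + 3 := by
          have := Finset.card_le_three (a := O.1) (b := O.2.1) (c := O.2.2)
          omega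
    have h4 : (Y \ D).card + D.card = Y.card := Finset.card_sdiff_add_card_eq_card hD.sub
    omega
  have hW : WS Y O C (Y \ D) := by
    refine ⟨⟨b, C, hC, hS⟩, ⟨fun i => Or.inr (side_jump hS i), ?_, ?_⟩,
      Finset.mem_sdiff.2 ⟨hO, hOD⟩, hv⟩
    · intro x y h
      exact (hS.jump _ _).1 h
    · intro i j _ h _
      exact hC.inj h
  obtain ⟨N, w', hN, hs, hp⟩ := iter h4 hY hb (b + 4) (Y \ D) C hcard hW
  have hN' : N ≤ Lb b := hN
  have hadj : ∀ i, w' i = w' (i + 1) ∨ Adj Y (w' i) (w' (i + 1)) := by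
    obtain ⟨ws, Xs, -, h1, -, h2, -⟩ := hs
    intro i
    have := h2 N le_rfl i
    rwa [h1] at this
  have hfin := seg_trans hs (seg_pad hadj (Lb b - N)) (Finset.disjoint_empty_right _)
  rw [Finset.union_empty, Nat.add_sub_cancel' hN'] at hfin
  obtain ⟨ws, Xs, h0, hL, hm, ha, hd, hc⟩ := hfin
  refine ⟨ws, Xs, h0, hm, ha, hd, ?_, ?_⟩
  · intro t
    rw [hc, Finset.mem_sdiff]
  · rw [hL]
    exact hp

end Pool.Agent.H3.RCR
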