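import Pool.Agent.H47.RCR.W3

/-!
# RCR, module W4, part a: moving a block of slots
-/

namespace Pool.Agent.H3.RCR

namespace W47

theorem val_succ {b : ℕ} (hb : 2 ≤ b) (x : ZMod b) :
    (x.val + 1 < b ∧ (x + 1).val = x.val + 1) ∨ (x.val + 1 = b ∧ x + 1 = 0) := by
  have : NeZero b := ⟨by omega⟩
  have : Fact (1 < b) := ⟨by omega⟩
  have hx := ZMod.val_lt x
  by_cases h : x.val + 1 < b
  · left
    refine ⟨h, ?_⟩
    rw [ZMod.val_add, ZMod.val_one, Nat.mod_eq_of_lt h]
  · right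
    have h' : x.val + 1 = b := by omega
    refine ⟨h', ?_⟩
    have : ((x.val + 1 : ℕ) : ZMod b) = 0 := by rw [h', ZMod.natCast_self]
    rw [Nat.cast_add, ZMod.natCast_zmod_val, Nat.cast_one] at this
    exact this

/-- the walk after moving the first `s` slots from `a` on to `q` -/
def mv {b : ℕ} (w : ZMod b → ℕ) (a : ZMod b) (q s : ℕ) : ZMod b → ℕ :=
  fun i => if (i - a).val < s then q else w i

theorem mv_zero {b : ℕ} (w : ZMod b → ℕ) (a : ZMod b) (q : ℕ) : mv w a q 0 = w := by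
  funext i
  simp [mv]

theorem mv_add {b : ℕ} (w : ZMod b → ℕ) (a : ZMod b) (q s t : ℕ) (ht : t < b) :
    mv w a q s (a + (t : ZMod b)) = if t < s then q else w (a + (t : ZMod b)) := by
  simp only [mv]
  rw [add_sub_cancel_left, ZMod.val_natCast_of_lt ht]

/-- classification of the slots -/
theorem cls {b r : ℕ} (w : ZMod b → ℕ) (a i : ZMod b) (q : ℕ) (hr1 : 1 ≤ r) (hrb : r < b) :
    (i = a - 1 ∧ mv w a q r i = w i ∧ mv w a q r (i + 1) = q) ∨
    ((∃ t : ℕ, t + 1 < r ∧ i = a + (t : ZMod b)) ∧ mv w a q r i = q ∧ mv w a q r (i + 1) = q) ∨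
    (i = a + ((r - 1 : ℕ) : ZMod b) ∧ i + 1 = a + (r : ZMod b) ∧ mv w a q r i = q ∧
      mv w a q r (i + 1) = w (i + 1)) ∨
    ((∃ t : ℕ, r ≤ t ∧ t + 1 < b ∧ i = a + (t : ZMod b)) ∧ mv w a q r i = w i ∧
      mv w a q r (i + 1) = w (i + 1)) := by
  have : NeZero b := ⟨by omega⟩
  obtain ⟨t, ht⟩ : ∃ t : ℕ, t = (i - a).val := ⟨_, rfl⟩
  have htb : t < b := ht ▸ ZMod.val_lt _
  have hi : i = a + (t : ZMod b) := by
    rw [ht, ZMod.natCast_zmod_val]; ring
  have hi1 : i + 1 = a + ((t + 1 : ℕ) : ZMod b) := by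
    rw [hi]; push_cast; ring
  by_cases h1 : t + 1 = b
  · left
    have ha : i + 1 = a := by rw [hi1, h1, ZMod.natCast_self, add_zero]
    refine ⟨by rw [← ha]; ring, ?_, ?_⟩
    · rw [hi, mv_add _ _ _ _ _ htb, if_neg (by omega)]
    · rw [ha]
      have := mv_add w a q r 0 (by omega)
      rw [Nat.cast_zero, add_zero, if_pos (by omega)] at this
      exact this
  · right
    have h2 : t + 1 < b := by omega
    by_cases h3 : t + 1 < r
    · left
      refine ⟨⟨t, h3, hi⟩, ?_, ?_⟩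
      · rw [hi, mv_add _ _ _ _ _ htb, if_pos (by omega)]
      · rw [hi1, mv_add _ _ _ _ _ h2, if_pos h3]
    · right
      by_cases h4 : t + 1 = r
      · left
        refine ⟨by rw [hi]; congr 2; omega, by rw [hi1, h4], ?_, ?_⟩
        · rw [hi, mv_add _ _ _ _ _ htb, if_pos (by omega)]
        · rw [hi1, mv_add _ _ _ _ _ h2, if_neg h3]
      · right
        refine ⟨⟨t, by omega, h2, hi⟩, ?_, ?_⟩
        · rw [hi, mv_add _ _ _ _ _ htb, if_neg (by omega)]
        · rw [hi1, mv_add _ _ _ _ _ h2, if_neg h3]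

theorem crs_ndeg {t : Tri} (h : ¬ Nd t) : crs t = ∅ := if_neg h

theorem crs_nd {t : Tri} (h : Nd t) : crs t = rots t := if_pos h

/-- the faces crossed in step `s` -/
def Xst (u v x q r s : ℕ) : Finset Tri :=
  (if s = 0 then crs (u, v, q) else ∅) ∪ (if s + 1 = r then crs (v, x, q) else ∅)

/-- data of a block of slots -/
structure Blk {b : ℕ} (w : ZMod b → ℕ) (a : ZMod b) (r u v x : ℕ) : Prop where
  r1 : 1 ≤ r
  rb : r < b
  hu : w (a - 1) = u
  hv : ∀ s < r, w (a + (s : ZMod b)) = v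
  hx : w (a + (r : ZMod b)) = x

theorem sm_step {Y : Finset Tri} {b r u v x q : ℕ} {w : ZMod b → ℕ} {a : ZMod b}
    (hB : Blk w a r u v x) (hvq : v = q ∨ Adj Y v q)
    (h1 : Nd (u, v, q) → (u, v, q) ∈ Y) (h2 : Nd (v, x, q) → (v, x, q) ∈ Y) :
    ∀ s < r, SM Y (mv w a q s) (mv w a q (s + 1)) (Xst u v x q r s) := by
  intro s hs
  have hrb := hB.rb
  have hr1 := hB.r1
  have : NeZero b := ⟨by omega⟩
  have e0 : mv w a q s (a + (s : ZMod b)) = v := by
    rw [mv_add _ _ _ _ _ (by omega), if_neg (by omega), hB.hv s hs]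
  have em : mv w a q s (a + (s : ZMod b) - 1) = if s = 0 then u else q := by
    by_cases h : s = 0
    · subst h
      rw [if_pos rfl, mv_zero, Nat.cast_zero, add_zero, hB.hu]
    · rw [if_neg h]
      have : a + (s : ZMod b) - 1 = a + ((s - 1 : ℕ) : ZMod b) := by
        rw [Nat.cast_sub (by omega)]; push_cast; ring
      rw [this, mv_add _ _ _ _ _ (by omega), if_pos (by omega)]
  have ep : mv w a q s (a + (s : ZMod b) + 1) = if s + 1 = r then x else v := by
    have : a + (s : ZMod b) + 1 = a + ((s + 1 : ℕ) : ZMod b) := by push_cast; ring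
    rw [this, mv_add _ _ _ _ _ (by omega), if_neg (by omega)]
    by_cases h : s + 1 = r
    · rw [if_pos h, h, hB.hx]
    · rw [if_neg h, hB.hv _ (by omega)]
  refine ⟨a + (s : ZMod b), q, ?_, ?_, ?_, ?_, ?_⟩
  · funext i
    by_cases hi : i = a + (s : ZMod b)
    · subst hi
      rw [Function.update_self, mv_add _ _ _ _ _ (by omega), if_pos (by omega)]
    · rw [Function.update_of_ne hi]
      simp only [mv]
      have : (i - a).val ≠ s := by
        intro h
        apply hi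
        rw [← h, ZMod.natCast_zmod_val]
        ring
      have h5 : (i - a).val < s + 1 ↔ (i - a).val < s := by omega
      simp only [h5]
  · rw [e0]; exact hvq
  · rw [e0, em]
    split_ifs with h
    · exact h1
    · exact fun h' => absurd rfl h'.2.2
  · rw [e0, ep]
    split_ifs with h
    · exact h2
    · exact fun h' => absurd rfl h'.1
  · rw [e0, em, ep, Xst]
    have n1 : crs (q, v, q) = ∅ := crs_ndeg (fun h' => absurd rfl h'.2.2)
    have n2 : crs (v, v, q) = ∅ := crs_ndeg (fun h' => absurd rfl h'.1)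
    split_ifs <;> simp [n1, n2]

theorem adj_step {Y : Finset Tri} {b r u v x q : ℕ} {w : ZMod b → ℕ} {a : ZMod b}
    (hB : Blk w a r u v x) (hw : ∀ i, w i = w (i + 1) ∨ Adj Y (w i) (w (i + 1)))
    (huq : u = q ∨ Adj Y u q) (hqv : q = v ∨ Adj Y q v) (hqx : q = x ∨ Adj Y q x) :
    ∀ s ≤ r, ∀ i, mv w a q s i = mv w a q s (i + 1) ∨
      Adj Y (mv w a q s i) (mv w a q s (i + 1)) := by
  intro s hs i
  rcases Nat.eq_zero_or_pos s with rfl | hs0
  · rw [mv_zero]; exact hw i
  have hrb := hB.rb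
  rcases cls w a i q hs0 (by omega : s < b) with ⟨e, h1, h2⟩ | ⟨-, h1, h2⟩ | ⟨e, e', h1, h2⟩ |
    ⟨-, h1, h2⟩
  · rw [h1, h2, e, hB.hu]; exact huq
  · rw [h1, h2]; exact Or.inl rfl
  · rw [h1, h2, e']
    by_cases h : s = r
    · rw [h, hB.hx]; exact hqx
    · rw [hB.hv s (by omega)]; exact hqv
  · rw [h1, h2]; exact hw i

theorem par_step {Y R R' : Finset Tri} {b r u v x q : ℕ} {w : ZMod b → ℕ} {a : ZMod b}
    (hY : Pre Y) (hR : R ⊆ Y) (hB : Blk w a r u v x) (hp : Par Y w R)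
    (hJ : ∀ y z, Jump Y R' y z ↔ (Jump Y R y z ∧ ¬ (y = u ∧ z = v) ∧ ¬ (y = v ∧ z = x)) ∨
      (y = u ∧ z = q ∧ u ≠ q) ∨ (y = q ∧ z = x ∧ q ≠ x))
    (hJ1 : ¬ Jump Y R u q) (hJ2 : ¬ Jump Y R q x) : Par Y (mv w a q r) R' := by
  have hrb := hB.rb
  have hr1 := hB.r1
  have : NeZero b := ⟨by omega⟩
  have hne : ∀ {y z}, Jump Y R y z → y ≠ z := by
    rintro y z ⟨⟨c, hc⟩, -⟩
    exact hY.ne _ _ _ (hR hc)
  have hva : w a = v := by
    have := hB.hv 0 (by omega)
    simpa using this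
  have hvl : w (a + ((r - 1 : ℕ) : ZMod b)) = v := hB.hv _ (by omega)
  have hll : a + ((r - 1 : ℕ) : ZMod b) + 1 = a + (r : ZMod b) := by
    rw [Nat.cast_sub hr1]; push_cast; ring
  have hJold : ∀ i, w i ≠ w (i + 1) → Jump Y R (w i) (w (i + 1)) := fun i hi =>
    (hp.step i).resolve_left hi
  have hval : ∀ s t : ℕ, s < b → t < b → a + (s : ZMod b) = a + (t : ZMod b) → s = t := by
    intro s t hs ht h
    have h' := add_left_cancel h
    have := congrArg ZMod.val h'
    rwa [ZMod.val_natCast_of_lt hs, ZMod.val_natCast_of_lt ht] at this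
  have ham : a - 1 = a + ((b - 1 : ℕ) : ZMod b) := by
    rw [Nat.cast_sub (by omega), ZMod.natCast_self]; push_cast; ring
  constructor
  · intro i
    rcases cls w a i q hr1 hrb with ⟨e, h1, h2⟩ | ⟨-, h1, h2⟩ | ⟨e, e', h1, h2⟩ |
      ⟨⟨t, ht1, ht2, e⟩, h1, h2⟩
    · rw [h1, h2, e, hB.hu]
      by_cases h : u = q
      · exact Or.inl h
      · exact Or.inr ((hJ _ _).2 (Or.inr (Or.inl ⟨rfl, rfl, h⟩)))
    · rw [h1, h2]; exact Or.inl rfl
    · rw [h1, h2, e', hB.hx]
      by_cases h : q = x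
      · exact Or.inl h
      · exact Or.inr ((hJ _ _).2 (Or.inr (Or.inr ⟨rfl, rfl, h⟩)))
    · rw [h1, h2]
      by_cases h : w i = w (i + 1)
      · exact Or.inl h
      · refine Or.inr ((hJ _ _).2 (Or.inl ⟨hJold i h, ?_, ?_⟩))
        · rintro ⟨g1, g2⟩
          have := hp.uniq i (a - 1) h (by rw [g1, hB.hu]) (by rw [g2, sub_add_cancel, hva])
          rw [e, ham] at this
          have := hval _ _ (by omega) (by omega) this
          omega
        · rintro ⟨g1, g2⟩
          have := hp.uniq i (a + ((r - 1 : ℕ) : ZMod b)) h (by rw [g1, hvl])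
            (by rw [g2, hll, hB.hx])
          rw [e] at this
          have := hval _ _ (by omega) (by omega) this
          omega
  · intro y z hyz
    rcases (hJ y z).1 hyz with ⟨hj, g1, g2⟩ | ⟨rfl, rfl, -⟩ | ⟨rfl, rfl, -⟩
    · obtain ⟨i, rfl, rfl⟩ := hp.all y z hj
      rcases cls w a i q hr1 hrb with ⟨e, h1, h2⟩ | ⟨⟨t, ht, e⟩, h1, h2⟩ | ⟨e, e', h1, h2⟩ |
        ⟨-, h1, h2⟩
      · exact absurd ⟨by rw [e, hB.hu], by rw [e, sub_add_cancel, hva]⟩ g1
      · exfalso
        apply hne hj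
        have e1 : i + 1 = a + ((t + 1 : ℕ) : ZMod b) := by rw [e]; push_cast; ring
        rw [e1, hB.hv _ ht, e, hB.hv _ (by omega)]
      · exact absurd ⟨by rw [e, hvl], by rw [e', hB.hx]⟩ g2
      · exact ⟨i, h1.symm, h2.symm⟩
    · refine ⟨a - 1, ?_, ?_⟩
      · rcases cls w a (a - 1) z hr1 hrb with ⟨e, h1, h2⟩ | ⟨⟨t, ht, e⟩, h1, h2⟩ |
          ⟨e, e', h1, h2⟩ | ⟨⟨t, ht1, ht2, e⟩, h1, h2⟩
        · rw [h1, hB.hu]
        · rw [ham] at e
          have := hval _ _ (by omega) (by omega) e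
          omega
        · rw [ham] at e
          have := hval _ _ (by omega) (by omega) e
          omega
        · rw [ham] at e
          have := hval _ _ (by omega) (by omega) e
          omega
      · have := mv_add w a z r 0 (by omega)
        rw [Nat.cast_zero, add_zero, if_pos (by omega)] at this
        rw [sub_add_cancel, this]
    · refine ⟨a + ((r - 1 : ℕ) : ZMod b), ?_, ?_⟩
      · rw [mv_add _ _ _ _ _ (by omega), if_pos (by omega)]
      · rw [hll, mv_add _ _ _ _ _ hrb, if_neg (by omega), hB.hx]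
  · intro i j hij h1 h2
    rcases cls w a i q hr1 hrb with ⟨e, k1, k2⟩ | ⟨-, k1, k2⟩ | ⟨e, e', k1, k2⟩ | ⟨-, k1, k2⟩ <;>
    rcases cls w a j q hr1 hrb with ⟨f, l1, l2⟩ | ⟨-, l1, l2⟩ | ⟨f, f', l1, l2⟩ | ⟨-, l1, l2⟩
    · rw [e, f]
    · exact absurd (h1.trans (l1.trans k2.symm)) hij
    · exact absurd (h1.trans (l1.trans k2.symm)) hij
    · exfalso
      apply hJ1
      rw [k1, l1, e, hB.hu] at h1
      rw [k2, l2] at h2
      rw [k1, k2, e, hB.hu] at hij
      have := hJold j (by rw [← h1, ← h2]; exact hij)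
      rwa [← h1, ← h2] at this
    · exact absurd (k1.trans k2.symm) hij
    · exact absurd (k1.trans k2.symm) hij
    · exact absurd (k1.trans k2.symm) hij
    · exact absurd (k1.trans k2.symm) hij
    · exact absurd (k1.trans (l2.symm.trans h2.symm)) hij
    · exact absurd (k1.trans (l2.symm.trans h2.symm)) hij
    · rw [e, f]
    · exfalso
      apply hJ2
      rw [k1, l1] at h1
      rw [k2, l2, e', hB.hx] at h2
      rw [k1, k2, e', hB.hx] at hij
      have := hJold j (by rw [← h1, ← h2]; exact hij)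
      rwa [← h1, ← h2] at this
    · exfalso
      apply hJ1
      rw [k1, l1, f, hB.hu] at h1
      rw [k2, l2] at h2
      rw [k1, k2] at hij
      have := hJold i hij
      rwa [h1, h2] at this
    · exact absurd (h1.trans (l1.trans (l2.symm.trans h2.symm))) hij
    · exfalso
      apply hJ2
      rw [k1, l1] at h1
      rw [k2, l2, f', hB.hx] at h2
      rw [k1, k2] at hij
      have := hJold i hij
      rwa [h1, h2] at this
    · rw [k1, l1] at h1
      rw [k2, l2] at h2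
      rw [k1, k2] at hij
      exact hp.uniq i j hij h1 h2

end W47

end Pool.Agent.H3.RCR
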