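import Pool.Agent.H47.RCR.W4a

/-!
# RCR, module W4, part b: blocks, insertions, ears
-/

namespace Pool.Agent.H3.RCR

namespace W47

theorem jump_iff {F S : Finset Tri} (hF : Pre F) (hS : S ⊆ F) {a b : ℕ} :
    Jump F S a b ↔ Adj S a b ∧ ¬ Adj S b a := by
  constructor
  · intro h
    exact ⟨h.1, fun ⟨c, hc⟩ => jump_right hF hS h c hc⟩
  · rintro ⟨⟨c, hc⟩, h2⟩
    obtain ⟨d, hd⟩ := hF.opp _ _ _ (hS hc)
    exact ⟨⟨c, hc⟩, d, hd, fun h => h2 ⟨d, h⟩⟩

/-- the darts of `S` minus a face -/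
theorem adj_sdiff {F S : Finset Tri} (hF : Pre F) (hS : S ⊆ F) (hrot : RotC S) {g h q : ℕ}
    (hf : (g, h, q) ∈ S) {a b : ℕ} :
    Adj (S \ rots (g, h, q)) a b ↔ Adj S a b ∧ ¬ (a = g ∧ b = h) ∧ ¬ (a = h ∧ b = q) ∧
      ¬ (a = q ∧ b = g) := by
  have hf2 := hrot _ _ _ hf
  have hf3 := hrot _ _ _ hf2
  constructor
  · rintro ⟨c, hc⟩
    obtain ⟨hc1, hc2⟩ := Finset.mem_sdiff.1 hc
    refine ⟨⟨c, hc1⟩, ?_, ?_, ?_⟩
    · rintro ⟨rfl, rfl⟩
      apply hc2
      rw [hF.uniq _ _ _ _ (hS hc1) (hS hf)]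
      simp [rots]
    · rintro ⟨rfl, rfl⟩
      apply hc2
      rw [hF.uniq _ _ _ _ (hS hc1) (hS hf2)]
      simp [rots]
    · rintro ⟨rfl, rfl⟩
      apply hc2
      rw [hF.uniq _ _ _ _ (hS hc1) (hS hf3)]
      simp [rots]
  · rintro ⟨⟨c, hc⟩, h1, h2, h3⟩
    refine ⟨c, Finset.mem_sdiff.2 ⟨hc, ?_⟩⟩
    intro h'
    rcases mem_rots.1 h' with e | e | e <;> simp only [Prod.mk.injEq] at e
    · exact h1 ⟨e.1, e.2.1⟩
    · exact h2 ⟨e.1, e.2.1⟩
    · exact h3 ⟨e.1, e.2.1⟩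

theorem rotC_sdiff {S : Finset Tri} (hrot : RotC S) (t : Tri) : RotC (S \ rots t) := by
  intro a b c h
  obtain ⟨h1, h2⟩ := Finset.mem_sdiff.1 h
  refine Finset.mem_sdiff.2 ⟨hrot _ _ _ h1, fun h' => h2 ?_⟩
  have e := rots_eq h'
  rw [← e]
  simp [rots]

/-- a dart of `S` that is not a jump has its reverse in `S` -/
theorem adj_of_not_jump {F S : Finset Tri} (hF : Pre F) (hS : S ⊆ F) {a b : ℕ} (h : Adj S a b)
    (hj : ¬ Jump F S a b) : Adj S b a := by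
  by_contra h'
  exact hj ((jump_iff hF hS).2 ⟨h, h'⟩)

/-- the jumps after an insertion -/
theorem ins_jump {Y R : Finset Tri} {m : ℕ} {Γ : ZMod m → ℕ} (hP : Pre Y)
    (hR : Side Y Γ R) {j : ZMod m} {q : ℕ} (hf : (Γ j, Γ (j + 1), q) ∈ R) (hq : ∀ i, q ≠ Γ i)
    (a b : ℕ) :
    Jump Y (R \ rots (Γ j, Γ (j + 1), q)) a b ↔ (Jump Y R a b ∧ ¬ (a = Γ j ∧ b = Γ (j + 1))) ∨
      (a = Γ j ∧ b = q) ∨ (a = q ∧ b = Γ (j + 1)) := by
  have hqj : ∀ y, ¬ Jump Y R q y := by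
    intro y h
    obtain ⟨i, hi, -⟩ := (hR.jump _ _).1 h
    exact hq i hi
  have hqj' : ∀ y, ¬ Jump Y R y q := by
    intro y h
    obtain ⟨i, -, hi⟩ := (hR.jump _ _).1 h
    exact hq _ hi
  have hj := (jump_iff hP hR.sub).1 (side_jump hR j)
  have hf2 := hR.rot _ _ _ hf
  have hf3 := hR.rot _ _ _ hf2
  obtain ⟨n1, n2, n3⟩ := hP.nd (hR.sub hf)
  have hsub : R \ rots (Γ j, Γ (j + 1), q) ⊆ Y := Finset.sdiff_subset.trans hR.sub
  rw [jump_iff hP hsub, jump_iff hP hR.sub, adj_sdiff hP hR.sub hR.rot hf,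
    adj_sdiff hP hR.sub hR.rot hf]
  constructor
  · rintro ⟨⟨h1, h2, h3, h4⟩, h5⟩
    by_cases h6 : Adj R b a
    · right
      by_contra hc
      apply h5
      refine ⟨h6, ?_, ?_, ?_⟩
      · rintro ⟨rfl, rfl⟩
        exact hj.2 h1
      · rintro ⟨rfl, rfl⟩
        exact hc (Or.inr ⟨rfl, rfl⟩)
      · rintro ⟨rfl, rfl⟩
        exact hc (Or.inl ⟨rfl, rfl⟩)
    · left
      exact ⟨⟨h1, h6⟩, h2⟩
  · rintro (⟨⟨h1, h2⟩, h3⟩ | ⟨rfl, rfl⟩ | ⟨rfl, rfl⟩)
    · refine ⟨⟨h1, h3, ?_, ?_⟩, fun h => h2 h.1⟩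
      · rintro ⟨rfl, rfl⟩
        exact hqj' _ ((jump_iff hP hR.sub).2 ⟨h1, h2⟩)
      · rintro ⟨rfl, rfl⟩
        exact hqj _ ((jump_iff hP hR.sub).2 ⟨h1, h2⟩)
    · refine ⟨⟨adj_of_not_jump hP hR.sub ⟨_, hf3⟩ (hqj _), ?_, ?_, ?_⟩, ?_⟩
      · rintro ⟨-, h⟩
        exact n2 h.symm
      · rintro ⟨h, -⟩
        exact n1 h
      · rintro ⟨h, -⟩
        exact n3 h.symm
      · rintro ⟨-, -, -, h⟩
        exact h ⟨rfl, rfl⟩
    · refine ⟨⟨adj_of_not_jump hP hR.sub ⟨_, hf2⟩ (hqj' _), ?_, ?_, ?_⟩, ?_⟩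
      · rintro ⟨h, -⟩
        exact n3 h
      · rintro ⟨h, -⟩
        exact n2 h.symm
      · rintro ⟨-, h⟩
        exact n1 h.symm
      · rintro ⟨-, -, h, -⟩
        exact h ⟨rfl, rfl⟩

/-- the cycle after an insertion -/
def ins {m : ℕ} (Γ : ZMod m → ℕ) (j : ZMod m) (q : ℕ) : ZMod (m + 1) → ℕ :=
  fun i => if i.val < m then Γ (j + 1 + (i.val : ZMod m)) else q

theorem ins_step {Y R : Finset Tri} {m : ℕ} {Γ : ZMod m → ℕ} (hP : Pre Y) (hΓ : Cyc Y Γ)
    (hR : Side Y Γ R) {j : ZMod m} {q : ℕ} (hf : (Γ j, Γ (j + 1), q) ∈ R) (hq : ∀ i, q ≠ Γ i) :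
    Cyc Y (ins Γ j q) ∧ Side Y (ins Γ j q) (R \ rots (Γ j, Γ (j + 1), q)) := by
  have hm := hΓ.three
  have : NeZero m := ⟨by omega⟩
  have hf2 := hR.rot _ _ _ hf
  have hf3 := hR.rot _ _ _ hf2
  -- values of `ins`
  have hlt : ∀ i : ZMod (m + 1), i.val < m → ins Γ j q i = Γ (j + 1 + (i.val : ZMod m)) :=
    fun i hi => if_pos hi
  have hge : ∀ i : ZMod (m + 1), ¬ i.val < m → ins Γ j q i = q := fun i hi => if_neg hi
  have hlast : j + 1 + ((m - 1 : ℕ) : ZMod m) = j := by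
    rw [Nat.cast_sub (by omega), ZMod.natCast_self]; push_cast; ring
  -- consecutive pairs
  have hpair : ∀ i : ZMod (m + 1),
      (∃ k : ZMod m, k ≠ j ∧ ins Γ j q i = Γ k ∧ ins Γ j q (i + 1) = Γ (k + 1)) ∨
      (ins Γ j q i = Γ j ∧ ins Γ j q (i + 1) = q) ∨
      (ins Γ j q i = q ∧ ins Γ j q (i + 1) = Γ (j + 1)) := by
    intro i
    have hi := ZMod.val_lt i
    rcases val_succ (by omega : 2 ≤ m + 1) i with ⟨h1, h2⟩ | ⟨h1, h2⟩
    · rw [hlt i (by omega)]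
      by_cases h3 : i.val + 1 < m
      · left
        refine ⟨j + 1 + (i.val : ZMod m), ?_, rfl, ?_⟩
        · intro h
          have h4 := add_left_cancel ((by rw [hlast]; exact h :
            j + 1 + (i.val : ZMod m) = j + 1 + ((m - 1 : ℕ) : ZMod m)))
          have h5 := congrArg ZMod.val h4
          rw [ZMod.val_natCast_of_lt (by omega), ZMod.val_natCast_of_lt (by omega)] at h5
          omega
        · rw [hlt _ (by rw [h2]; exact h3), h2]
          congr 1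
          push_cast
          ring
      · right; left
        have h4 : i.val = m - 1 := by omega
        refine ⟨by rw [h4, hlast], hge _ (by rw [h2]; exact h3)⟩
    · right; right
      refine ⟨hge _ (by omega), ?_⟩
      rw [h2, hlt _ (by rw [ZMod.val_zero]; omega), ZMod.val_zero, Nat.cast_zero, add_zero]
  refine ⟨⟨by omega, ?_, ?_⟩, ⟨Finset.sdiff_subset.trans hR.sub, rotC_sdiff hR.rot _, ?_⟩⟩
  · intro i i' h
    have hi := ZMod.val_lt i
    have hi' := ZMod.val_lt i'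
    apply ZMod.val_injective
    by_cases h1 : i.val < m <;> by_cases h2 : i'.val < m
    · rw [hlt i h1, hlt i' h2] at h
      have h4 := add_left_cancel (hΓ.inj h)
      have h5 := congrArg ZMod.val h4
      rwa [ZMod.val_natCast_of_lt h1, ZMod.val_natCast_of_lt h2] at h5
    · rw [hlt i h1, hge i' h2] at h
      exact absurd h.symm (hq _)
    · rw [hge i h1, hlt i' h2] at h
      exact absurd h (hq _)
    · omega
  · intro i
    rcases hpair i with ⟨k, -, h1, h2⟩ | ⟨h1, h2⟩ | ⟨h1, h2⟩ <;> rw [h1, h2]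
    · exact hΓ.adj k
    · exact hP.adj_symm ⟨_, hR.sub hf3⟩
    · exact hP.adj_symm ⟨_, hR.sub hf2⟩
  · intro a b
    rw [ins_jump hP hR hf hq]
    constructor
    · rintro (⟨h1, h2⟩ | ⟨rfl, rfl⟩ | ⟨rfl, rfl⟩)
      · obtain ⟨k, rfl, rfl⟩ := (hR.jump _ _).1 h1
        have hk : k ≠ j := fun h => h2 (by rw [h]; exact ⟨rfl, rfl⟩)
        obtain ⟨t, ht⟩ : ∃ t : ℕ, t = (k - (j + 1)).val := ⟨_, rfl⟩
        have htm : t < m := ht ▸ ZMod.val_lt _
        have hkt : k = j + 1 + (t : ZMod m) := by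
          rw [ht, ZMod.natCast_zmod_val]; ring
        have htn : t ≠ m - 1 := by
          rintro h
          apply hk
          rw [hkt, h, hlast]
        have hv : ((t : ZMod (m + 1))).val = t := ZMod.val_natCast_of_lt (by omega)
        refine ⟨(t : ZMod (m + 1)), ?_, ?_⟩
        · rw [hlt _ (by rw [hv]; exact htm), hv, hkt]
        · rcases val_succ (by omega : 2 ≤ m + 1) (t : ZMod (m + 1)) with ⟨h3, h4⟩ | ⟨h3, h4⟩
          · rw [hv] at h4
            rw [hlt _ (by rw [h4]; omega), h4, hkt]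
            congr 1
            push_cast
            ring
          · rw [hv] at h3
            omega
      · have hv : (((m - 1 : ℕ) : ZMod (m + 1))).val = m - 1 := ZMod.val_natCast_of_lt (by omega)
        refine ⟨((m - 1 : ℕ) : ZMod (m + 1)), ?_, ?_⟩
        · rw [hlt _ (by rw [hv]; omega), hv, hlast]
        · rcases val_succ (by omega : 2 ≤ m + 1) ((m - 1 : ℕ) : ZMod (m + 1)) with ⟨h3, h4⟩ |
            ⟨h3, h4⟩
          · rw [hv] at h4
            rw [hge _ (by rw [h4]; omega)]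
          · rw [hv] at h3
            omega
      · have hv : (((m : ℕ) : ZMod (m + 1))).val = m := ZMod.val_natCast_of_lt (by omega)
        refine ⟨((m : ℕ) : ZMod (m + 1)), ?_, ?_⟩
        · rw [hge _ (by rw [hv]; omega)]
        · rcases val_succ (by omega : 2 ≤ m + 1) ((m : ℕ) : ZMod (m + 1)) with ⟨h3, h4⟩ |
            ⟨h3, h4⟩
          · rw [hv] at h3
            omega
          · rw [h4, hlt _ (by rw [ZMod.val_zero]; omega), ZMod.val_zero, Nat.cast_zero, add_zero]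
    · rintro ⟨i, rfl, rfl⟩
      rcases hpair i with ⟨k, hk, h1, h2⟩ | ⟨h1, h2⟩ | ⟨h1, h2⟩ <;> rw [h1, h2]
      · exact Or.inl ⟨side_jump hR k, fun h => hk (hΓ.inj h.1)⟩
      · exact Or.inr (Or.inl ⟨rfl, rfl⟩)
      · exact Or.inr (Or.inr ⟨rfl, rfl⟩)

/-- the removal of an ear -/
theorem ear_step (h7 : A7Stmt) (h19 : A19Stmt) {Y R : Finset Tri} {m : ℕ} {Γ : ZMod m → ℕ}
    (hY : Sph Y) (hΓ : Cyc Y Γ) (hR : Side Y Γ R) (hm : 4 ≤ m) {k : ZMod m}
    (hf : (Γ (k - 1), Γ k, Γ (k + 1)) ∈ R) :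
    (∃ (m' : ℕ) (Γ' : ZMod m' → ℕ), Cyc Y Γ' ∧
      Side Y Γ' (R \ rots (Γ (k - 1), Γ k, Γ (k + 1)))) ∧
    (∀ a b, Jump Y (R \ rots (Γ (k - 1), Γ k, Γ (k + 1))) a b ↔
      (Jump Y R a b ∧ ¬ (a = Γ (k - 1) ∧ b = Γ k) ∧ ¬ (a = Γ k ∧ b = Γ (k + 1))) ∨
      (a = Γ (k - 1) ∧ b = Γ (k + 1))) ∧
    ¬ Jump Y R (Γ (k - 1)) (Γ (k + 1)) := by
  have hm0 : NeZero m := ⟨by omega⟩
  have hP := hY.toPre
  have hf2 := hR.rot _ _ _ hf
  have hf3 := hR.rot _ _ _ hf2
  obtain ⟨n1, n2, n3⟩ := hP.nd (hR.sub hf)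
  have hcast : ∀ a : ℕ, a < m → (a : ZMod m) = 0 → a = 0 := by
    intro a ha h
    rw [ZMod.natCast_eq_zero_iff] at h
    exact Nat.eq_zero_of_dvd_of_lt h ha
  have h1 : (1 : ZMod m) ≠ 0 := fun h => by
    have := hcast 1 (by omega) (by simpa using h)
    omega
  have h3 : (3 : ZMod m) ≠ 0 := fun h => by
    have := hcast 3 (by omega) (by simpa using h)
    omega
  have hux : ¬ Jump Y R (Γ (k - 1)) (Γ (k + 1)) := by
    rw [hR.jump]
    rintro ⟨i, hi1, hi2⟩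
    have e1 := hΓ.inj hi1
    have e2 := hΓ.inj hi2
    rw [← e1] at e2
    apply h1
    linear_combination e2
  have hxu : ¬ Jump Y R (Γ (k + 1)) (Γ (k - 1)) := by
    rw [hR.jump]
    rintro ⟨i, hi1, hi2⟩
    have e1 := hΓ.inj hi1
    have e2 := hΓ.inj hi2
    rw [← e1] at e2
    apply h3
    linear_combination -e2
  have hAux : Adj R (Γ (k - 1)) (Γ (k + 1)) := adj_of_not_jump hP hR.sub ⟨_, hf3⟩ hxu
  have hj1 : ∀ c, (Γ k, Γ (k - 1), c) ∉ R := by
    have := side_jump hR (k - 1)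
    rw [sub_add_cancel] at this
    exact jump_right hP hR.sub this
  have hj2 : ∀ c, (Γ (k + 1), Γ k, c) ∉ R := jump_right hP hR.sub (side_jump hR k)
  refine ⟨?_, ?_, hux⟩
  · obtain ⟨z, hz⟩ := hAux
    obtain ⟨S1, S2, hc1, hS1, hc2, hS2, hd, hun⟩ := h19 Y hY m Γ R hΓ hR (k - 1) 2 z le_rfl
      (by omega) (by
        have : k - 1 + ((2 : ℕ) : ZMod m) = k + 1 := by push_cast; ring
        rw [this]; exact hz)
    -- `S1` is the ear
    have e0 : k - 1 + ((((0 : ZMod (2 + 1))).val : ℕ) : ZMod m) = k - 1 := by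
      have : ((0 : ZMod (2 + 1))).val = 0 := rfl
      rw [this]; simp
    have e1 : k - 1 + ((((0 : ZMod (2 + 1)) + 1).val : ℕ) : ZMod m) = k := by
      have : ((0 : ZMod (2 + 1)) + 1).val = 1 := rfl
      rw [this]; simp
    have e2 : k - 1 + ((((0 : ZMod (2 + 1)) + 2).val : ℕ) : ZMod m) = k + 1 := by
      have : ((0 : ZMod (2 + 1)) + 2).val = 2 := rfl
      rw [this]; push_cast; ring
    have hS1' : S1 = rots (Γ (k - 1), Γ k, Γ (k + 1)) := by
      have key := side_face h7 (Γ := fun k_1 : ZMod 3 => Γ (k - 1 + ((k_1.val : ℕ) : ZMod m)))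
        (k := 0) hY hc1 hS1
      erw [e0, e1, e2] at key
      apply key
      -- the face is in `S1`
      have hjmp := (hS1.jump _ _).2 ⟨0, rfl, rfl⟩
      erw [e0, e1] at hjmp
      obtain ⟨⟨c, hc⟩, -⟩ := hjmp
      have hs1 : S1 ⊆ R := hun ▸ Finset.subset_union_left
      have := hP.uniq _ _ _ _ (hR.sub (hs1 hc)) (hR.sub hf)
      rwa [this] at hc
    refine ⟨m - 2 + 1, _, hc2, ?_⟩
    have : R \ rots (Γ (k - 1), Γ k, Γ (k + 1)) = S2 := by
      rw [← hS1', ← hun]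
      ext t
      simp only [Finset.mem_sdiff, Finset.mem_union]
      constructor
      · rintro ⟨h | h, h'⟩
        · exact absurd h h'
        · exact h
      · intro h
        exact ⟨Or.inr h, fun h' => Finset.disjoint_left.1 hd h' h⟩
    rw [this]
    exact hS2
  · intro a b
    have hsub : R \ rots (Γ (k - 1), Γ k, Γ (k + 1)) ⊆ Y := Finset.sdiff_subset.trans hR.sub
    rw [jump_iff hP hsub, adj_sdiff hP hR.sub hR.rot hf, adj_sdiff hP hR.sub hR.rot hf]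
    constructor
    · rintro ⟨⟨h1, h2, h3, h4⟩, h5⟩
      by_cases h6 : Adj R b a
      · right
        by_contra hc
        apply h5
        refine ⟨h6, ?_, ?_, ?_⟩
        · rintro ⟨rfl, rfl⟩
          obtain ⟨c, hc'⟩ := h1
          exact hj1 c hc'
        · rintro ⟨rfl, rfl⟩
          obtain ⟨c, hc'⟩ := h1
          exact hj2 c hc'
        · rintro ⟨rfl, rfl⟩
          exact hc ⟨rfl, rfl⟩
      · left
        exact ⟨(jump_iff hP hR.sub).2 ⟨h1, h6⟩, h2, h3⟩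
    · rintro (⟨h1, h2, h3⟩ | ⟨rfl, rfl⟩)
      · have h1' := (jump_iff hP hR.sub).1 h1
        refine ⟨⟨h1'.1, h2, h3, ?_⟩, fun h => h1'.2 h.1⟩
        rintro ⟨rfl, rfl⟩
        exact hxu h1
      · refine ⟨⟨hAux, ?_, ?_, ?_⟩, ?_⟩
        · rintro ⟨-, h⟩
          exact n2 h.symm
        · rintro ⟨h, -⟩
          exact n1 h
        · rintro ⟨h, -⟩
          exact n3 h.symm
        · rintro ⟨-, -, -, h⟩
          exact h ⟨rfl, rfl⟩

/-- blocks of slots -/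
theorem block {Y R : Finset Tri} {m b : ℕ} {Γ : ZMod m → ℕ} {w : ZMod b → ℕ} (hΓ : Cyc Y Γ)
    (hR : Side Y Γ R) (hb : 4 ≤ b) (hp : Par Y w R) (k : ZMod m) :
    ∃ a r, Blk w a r (Γ (k - 1)) (Γ k) (Γ (k + 1)) := by
  have hm := hΓ.three
  have : NeZero m := ⟨by omega⟩
  have : NeZero b := ⟨by omega⟩
  have : Fact (1 < m) := ⟨by omega⟩
  have hj := side_jump hR (k - 1)
  rw [sub_add_cancel] at hj
  obtain ⟨i0, h1, h2⟩ := hp.all _ _ hj
  have hkk : Γ (k - 1) ≠ Γ k := by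
    intro h
    have := hΓ.inj h
    have h3 : (1 : ZMod m) = 0 := by linear_combination -this
    exact one_ne_zero h3
  have hex : ∃ n : ℕ, w (i0 + 1 + (n : ZMod b)) ≠ Γ k := by
    refine ⟨b - 1, ?_⟩
    have : i0 + 1 + ((b - 1 : ℕ) : ZMod b) = i0 := by
      rw [Nat.cast_sub (by omega), ZMod.natCast_self]; push_cast; ring
    rw [this, ← h1]
    exact hkk
  classical
  set r := Nat.find hex with hr
  have hspec : w (i0 + 1 + (r : ZMod b)) ≠ Γ k := Nat.find_spec hex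
  have hmin : ∀ s < r, w (i0 + 1 + (s : ZMod b)) = Γ k := fun s hs =>
    not_not.1 (Nat.find_min hex hs)
  have hr1 : 1 ≤ r := by
    by_contra h
    have h0 : r = 0 := by omega
    rw [h0] at hspec
    apply hspec
    rw [Nat.cast_zero, add_zero, ← h2]
  have hrb : r < b := by
    have : r ≤ b - 1 := Nat.find_min' hex (by
      have : i0 + 1 + ((b - 1 : ℕ) : ZMod b) = i0 := by
        rw [Nat.cast_sub (by omega), ZMod.natCast_self]; push_cast; ring
      rw [this, ← h1]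
      exact hkk)
    omega
  have hll : i0 + 1 + ((r - 1 : ℕ) : ZMod b) + 1 = i0 + 1 + (r : ZMod b) := by
    rw [Nat.cast_sub hr1]; push_cast; ring
  have hlast := hmin (r - 1) (by omega)
  refine ⟨i0 + 1, r, hr1, hrb, by rw [add_sub_cancel_right, ← h1], hmin, ?_⟩
  rcases hp.step (i0 + 1 + ((r - 1 : ℕ) : ZMod b)) with h | h
  · rw [hll, hlast] at h
    exact absurd h.symm hspec
  · rw [hll, hlast] at h
    obtain ⟨i, hi1, hi2⟩ := (hR.jump _ _).1 h
    rw [hi2, hΓ.inj hi1]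

/-- the walk is not constant, and all its values are on the cycle -/
theorem slot_mem {Y R : Finset Tri} {m b : ℕ} {Γ : ZMod m → ℕ} {w : ZMod b → ℕ} (hΓ : Cyc Y Γ)
    (hR : Side Y Γ R) (hb : 4 ≤ b) (hp : Par Y w R) (e : ZMod b) : ∃ i, w e = Γ i := by
  have hm := hΓ.three
  have : NeZero m := ⟨by omega⟩
  have : NeZero b := ⟨by omega⟩
  have : Fact (1 < m) := ⟨by omega⟩
  obtain ⟨i0, h1, h2⟩ := hp.all _ _ (side_jump hR 0)
  have h01 : Γ 0 ≠ Γ (0 + 1) := by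
    intro h
    have := hΓ.inj h
    rw [zero_add] at this
    exact zero_ne_one this
  have hex : ∃ n : ℕ, w (e + (n : ZMod b)) ≠ w e := by
    by_contra hne
    push Not at hne
    have hc : ∀ i, w i = w e := by
      intro i
      have := hne (i - e).val
      rwa [ZMod.natCast_zmod_val, add_sub_cancel] at this
    apply h01
    rw [h1, h2, hc i0, hc (i0 + 1)]
  classical
  set r := Nat.find hex with hr
  have hspec : w (e + (r : ZMod b)) ≠ w e := Nat.find_spec hex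
  have hmin : ∀ s < r, w (e + (s : ZMod b)) = w e := fun s hs =>
    not_not.1 (Nat.find_min hex hs)
  have hr1 : 1 ≤ r := by
    by_contra h
    have h0 : r = 0 := by omega
    rw [h0] at hspec
    apply hspec
    rw [Nat.cast_zero, add_zero]
  have hll : e + ((r - 1 : ℕ) : ZMod b) + 1 = e + (r : ZMod b) := by
    rw [Nat.cast_sub hr1]; push_cast; ring
  have hlast := hmin (r - 1) (by omega)
  rcases hp.step (e + ((r - 1 : ℕ) : ZMod b)) with h | h
  · rw [hll, hlast] at h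
    exact absurd h.symm hspec
  · rw [hll, hlast] at h
    obtain ⟨i, hi1, hi2⟩ := (hR.jump _ _).1 h
    exact ⟨i, hi1⟩

end W47

end Pool.Agent.H3.RCR
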